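import Mathlib

/-!
Definitions for the higher dominating numbers `𝔡(R_I)` and the numbers `𝔡^λ_κ`.
-/

open Cardinal Set

namespace Pool.Agent.Helper66.HD

/-- The Baire space `ω^ω`. -/
abbrev Baire : Type := ℕ → ℕ

/-- Slaloms: functions `φ : ω → [ω]^{<ω}` with `|φ(n)| ≤ n` for all `n`. -/
abbrev Slalom : Type := {φ : ℕ → Finset ℕ // ∀ n, (φ n).card ≤ n}

/-- `x ≤* y`: `x(n) ≤ y(n)` for all but finitely many `n`. -/
def leStar (x y : Baire) : Prop := {n | ¬ x n ≤ y n}.Finite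

/-- `x ≠* y`: `x(n) ≠ y(n)` for all but finitely many `n`. -/
def neStar (x y : Baire) : Prop := {n | ¬ x n ≠ y n}.Finite

/-- `x ∈* φ`: `x(n) ∈ φ(n)` for all but finitely many `n`. -/
def inStar (x : Baire) (φ : Slalom) : Prop := {n | ¬ x n ∈ φ.1 n}.Finite

/-- The bounding number `𝔟(R)`: the least size of a set `A ⊆ ω^ω` such that no `y`
satisfies `x R y` for all `x ∈ A`. -/
noncomputable def bnum {Y : Type} (R : Baire → Y → Prop) : Cardinal.{0} :=
  sInf {κ | ∃ A : Set Baire, #A = κ ∧ ¬ ∃ y : Y, ∀ x ∈ A, R x y}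

/-- `f R_I g`: the set of `x` with `¬ (f(x) R g(x))` belongs to `I`. -/
def relMod {Y : Type} (R : Baire → Y → Prop) (I : Set (Set Baire))
    (f : Baire → Baire) (g : Baire → Y) : Prop :=
  {x | ¬ R (f x) (g x)} ∈ I

/-- `𝔡(R_I)`: the least size of a family `D` of functions `ω^ω → Y` such that every
`f : ω^ω → ω^ω` satisfies `f R_I g` for some `g ∈ D`. -/
noncomputable def dnum {Y : Type} (R : Baire → Y → Prop) (I : Set (Set Baire)) :
    Cardinal.{0} :=
  sInf {κ | ∃ D : Set (Baire → Y), #D = κ ∧ ∀ f : Baire → Baire, ∃ g ∈ D, relMod R I f g}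

/-- `𝔡^λ_κ`: the least size of a family `D` of functions `λ → κ` such that for every
`f : λ → κ` there is `g ∈ D` with `|{α < λ : f(α) > g(α)}| < κ`
(here `κ.ord.ToType` is the initial ordinal `κ` with its order). -/
noncomputable def dGen (lam κ : Cardinal.{0}) : Cardinal.{0} :=
  sInf {μ | ∃ D : Set (lam.ord.ToType → κ.ord.ToType), #D = μ ∧
    ∀ f : lam.ord.ToType → κ.ord.ToType, ∃ g ∈ D, #{α | f α > g α} < κ}

end Pool.Agent.Helper66.HD
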