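import Pool.Agent.Helper66.HDNe

/-!
# Non-vacuity check for `NeEquality`: the hypothesis holds under the continuum hypothesis
-/

open Cardinal

namespace Pool.Agent.Helper66.HD

lemma check_ne (h : (𝔠 : Cardinal.{0}) = ℵ₁) : bnum neStar < ℵ_ (Ordinal.omega 1) := by
  refine lt_of_le_of_lt (bnum_le_continuum neStar neStar_unb) ?_
  rw [h]
  apply Cardinal.aleph_lt_aleph.2
  exact lt_of_lt_of_le Ordinal.one_lt_omega0 (Ordinal.omega0_le_omega 1)

end Pool.Agent.Helper66.HD
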