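import Pool.Agent.Helper66.HDMain

open Cardinal Set

namespace Pool.Agent.Helper66.HD

section bfacts

variable {Y : Type} (R : Baire → Y → Prop)

theorem bounded_of_lt_bnum (A : Set Baire) (hA : #A < bnum R) : ∃ y, ∀ x ∈ A, R x y := by
  by_contra h
  exact absurd hA (not_lt.2 (csInf_le' ⟨A, rfl, h⟩))

theorem exists_unbounded (h : ¬ ∃ y : Y, ∀ x, R x y) :
    ∃ A : Set Baire, #A = bnum R ∧ ¬ ∃ y : Y, ∀ x ∈ A, R x y := by
  have hne : {κ | ∃ A : Set Baire, #A = κ ∧ ¬ ∃ y : Y, ∀ x ∈ A, R x y}.Nonempty :=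
    ⟨_, Set.univ, rfl, by simpa using h⟩
  exact csInf_mem hne

theorem bnum_le_continuum (h : ¬ ∃ y : Y, ∀ x, R x y) : bnum R ≤ 𝔠 := by
  have : #(Set.univ : Set Baire) = 𝔠 := by simp
  rw [← this]
  exact csInf_le' ⟨Set.univ, rfl, by simpa using h⟩

theorem aleph0_le_bnum (h : ¬ ∃ y : Y, ∀ x, R x y)
    (hfin : ∀ A : Set Baire, A.Finite → ∃ y, ∀ x ∈ A, R x y) : ℵ₀ ≤ bnum R := by
  obtain ⟨A, hA, hun⟩ := exists_unbounded R h
  by_contra hlt
  rw [not_le, ← hA, Cardinal.lt_aleph0_iff_set_finite] at hlt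
  exact hun (hfin A hlt)

/-- The regularity of `𝔟(R)` from a `κ`-sequence with small bounded pieces. -/
theorem isRegular_of_seq {κ : Cardinal.{0}} (hκ : ℵ₀ ≤ κ)
    (hR : ∀ A : Set Baire, #A < κ → ∃ y, ∀ x ∈ A, R x y)
    (x : κ.ord.ToType → Baire) (hx : ∀ y, ∃ b, ∀ β, R (x β) y → β ≤ b) : κ.IsRegular := by
  refine ⟨hκ, ?_⟩
  have : NoMaxOrder κ.ord.ToType := Cardinal.noMaxOrder hκ
  rw [← Ordinal.cof_toType, Order.le_cof_iff]
  intro s hs
  by_contra hlt
  rw [not_le] at hlt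
  obtain ⟨y, hy⟩ := hR (x '' s) (lt_of_le_of_lt Cardinal.mk_image_le hlt)
  obtain ⟨b, hb⟩ := hx y
  obtain ⟨b', hb'⟩ := exists_gt b
  obtain ⟨c, hc, hbc⟩ := hs b'
  exact absurd (hb c (hy _ ⟨c, hc, rfl⟩)) (not_le.2 (hb'.trans_le hbc))

/-- Enumerating an unbounded family and bounding its initial segments. -/
theorem exists_enum (h : ¬ ∃ y : Y, ∀ x, R x y) :
    ∃ a : (bnum R).ord.ToType → Baire, (¬ ∃ y, ∀ γ, R (a γ) y) ∧
      ∀ β, #(a '' Iio β) < bnum R := by
  obtain ⟨A, hA, hun⟩ := exists_unbounded R h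
  obtain ⟨e⟩ := Cardinal.eq.1 (show #((bnum R).ord.ToType) = #A by rw [hA]; simp)
  refine ⟨fun γ => (e γ : A), ?_, ?_⟩
  · rintro ⟨y, hy⟩
    refine hun ⟨y, fun x hx => ?_⟩
    have := hy (e.symm ⟨x, hx⟩)
    simpa using this
  · intro β
    refine lt_of_le_of_lt Cardinal.mk_image_le ?_
    have := Cardinal.mk_Iio_lt β (by simp)
    simpa using this

end bfacts

/-! ### The relation `≤*` -/

theorem leStar_iff {x y : Baire} : leStar x y ↔ ∃ N, ∀ n ≥ N, x n ≤ y n := by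
  unfold leStar
  constructor
  · intro h
    obtain ⟨N, hN⟩ := h.bddAbove
    refine ⟨N + 1, fun n hn => ?_⟩
    by_contra hc
    have := hN (show n ∈ {n | ¬ x n ≤ y n} from hc)
    omega
  · rintro ⟨N, hN⟩
    refine (Set.finite_lt_nat N).subset fun n hn => ?_
    by_contra hc
    simp only [Set.mem_ofPred_eq, not_lt] at hc
    exact hn (hN n hc)

theorem leStar_trans {x y z : Baire} (h1 : leStar x y) (h2 : leStar y z) : leStar x z := by
  rw [leStar_iff] at *
  obtain ⟨N, hN⟩ := h1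
  obtain ⟨M, hM⟩ := h2
  exact ⟨max N M, fun n hn => (hN n (le_of_max_le_left hn)).trans (hM n (le_of_max_le_right hn))⟩

theorem leStar_unb : ¬ ∃ y : Baire, ∀ x, leStar x y := by
  rintro ⟨y, hy⟩
  obtain ⟨N, hN⟩ := leStar_iff.1 (hy (fun n => y n + 1))
  have : y N + 1 ≤ y N := hN N le_rfl
  omega

theorem leStar_fin (A : Set Baire) (hA : A.Finite) : ∃ y, ∀ x ∈ A, leStar x y := by
  refine ⟨fun n => hA.toFinset.sup (fun x => x n), fun x hx => ?_⟩
  rw [leStar_iff]
  refine ⟨0, fun n _ => ?_⟩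
  exact Finset.le_sup (f := fun x : Baire => x n) (hA.mem_toFinset.2 hx)

theorem leStar_seq : ∃ x : (bnum leStar).ord.ToType → Baire,
    ∀ y, ∃ b, ∀ β, leStar (x β) y → β ≤ b := by
  obtain ⟨a, hun, hsmall⟩ := exists_enum leStar leStar_unb
  have : NoMaxOrder (bnum leStar).ord.ToType :=
    Cardinal.noMaxOrder (aleph0_le_bnum leStar leStar_unb leStar_fin)
  choose x hx using fun β => bounded_of_lt_bnum leStar _ (hsmall β)
  refine ⟨x, fun y => ?_⟩
  by_contra hcon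
  push Not at hcon
  refine hun ⟨y, fun γ => ?_⟩
  obtain ⟨β, hβ, hlt⟩ := hcon γ
  exact leStar_trans (hx β _ ⟨γ, hlt, rfl⟩) hβ

theorem leStar_main : (bnum leStar).IsRegular ∧ bnum leStar ≤ 𝔠 ∧
    dnum leStar {∅} = dGen 𝔠 (bnum leStar) := by
  obtain ⟨x, hx⟩ := leStar_seq
  have h0 := aleph0_le_bnum leStar leStar_unb leStar_fin
  have hreg := isRegular_of_seq leStar h0 (bounded_of_lt_bnum leStar) x hx
  have hc := bnum_le_continuum leStar leStar_unb
  refine ⟨hreg, hc, le_antisymm ?_ ?_⟩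
  · exact dnum_le_dGen leStar hreg hc (bounded_of_lt_bnum leStar)
  · exact dGen_le_dnum leStar h0 (fun x => ⟨x, by simp [leStar]⟩) x hx

/-! ### The relation `∈*` -/

theorem inStar_iff {x : Baire} {φ : Slalom} : inStar x φ ↔ ∃ N, ∀ n ≥ N, x n ∈ φ.1 n := by
  unfold inStar
  constructor
  · intro h
    obtain ⟨N, hN⟩ := h.bddAbove
    refine ⟨N + 1, fun n hn => ?_⟩
    by_contra hc
    have := hN (show n ∈ {n | ¬ x n ∈ φ.1 n} from hc)
    omega
  · rintro ⟨N, hN⟩
    refine (Set.finite_lt_nat N).subset fun n hn => ?_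
    by_contra hc
    simp only [Set.mem_ofPred_eq, not_lt] at hc
    exact hn (hN n hc)

theorem inStar_unb : ¬ ∃ y : Slalom, ∀ x, inStar x y := by
  rintro ⟨φ, hφ⟩
  have : ∀ n, ∃ m, m ∉ φ.1 n := fun n => Infinite.exists_notMem_finset _
  choose f hf using this
  obtain ⟨N, hN⟩ := inStar_iff.1 (hφ f)
  exact hf N (hN N le_rfl)

theorem inStar_fin (A : Set Baire) (hA : A.Finite) : ∃ y, ∀ x ∈ A, inStar x y := by
  classical
  refine ⟨⟨fun n => if hA.toFinset.card ≤ n then hA.toFinset.image (fun x => x n) else ∅, ?_⟩,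
    fun x hx => ?_⟩
  · intro n
    dsimp only
    split_ifs with h
    · exact Finset.card_image_le.trans h
    · simp
  · rw [inStar_iff]
    refine ⟨hA.toFinset.card, fun n hn => ?_⟩
    simp only [ge_iff_le] at hn
    simp only [hn, if_true]
    exact Finset.mem_image_of_mem _ (hA.mem_toFinset.2 hx)

/-- the block of `m`: largest `n` with `(n+1)^2 ≤ ...`; we use `Nat.sqrt`. -/
def pack (x : Baire) (n : ℕ) : ℕ := Encodable.encode (List.ofFn (fun i : Fin ((n + 1) ^ 2) => x i))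

/-- unpacking the `m`-th value of a code. -/
def unpack (c : ℕ) (m : ℕ) : ℕ := (((Encodable.decode (α := List ℕ) c).getD []).getD m 0)

theorem unpack_pack (x : Baire) (n m : ℕ) (h : m < (n + 1) ^ 2) : unpack (pack x n) m = x m := by
  simp [unpack, pack, Encodable.encodek, List.getD_eq_getElem?_getD, h]

/-- the narrowing of a slalom: width `√m` instead of `m`. -/
noncomputable def narrow (φ : Slalom) (m : ℕ) : Finset ℕ :=
  (φ.1 (Nat.sqrt m)).image (fun c => unpack c m)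

theorem narrow_card (φ : Slalom) (m : ℕ) : (narrow φ m).card ≤ Nat.sqrt m :=
  Finset.card_image_le.trans (φ.2 _)

theorem narrow_mem (φ : Slalom) (x : Baire) (h : inStar (pack x) φ) :
    ∃ N, ∀ m ≥ N, x m ∈ narrow φ m := by
  obtain ⟨N, hN⟩ := inStar_iff.1 h
  refine ⟨N * N, fun m hm => ?_⟩
  have h1 : N ≤ Nat.sqrt m := Nat.le_sqrt.2 hm
  have h2 := hN _ h1
  have h3 : m < (Nat.sqrt m + 1) ^ 2 := by
    rw [pow_two]; exact Nat.lt_succ_sqrt m
  unfold narrow
  rw [Finset.mem_image]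
  exact ⟨_, h2, unpack_pack x _ _ h3⟩

/-- the code of a finite set. -/
noncomputable def dec (c : ℕ) : Finset ℕ := (Encodable.decode (α := Finset ℕ) c).getD ∅

theorem dec_encode (s : Finset ℕ) : dec (Encodable.encode s) = s := by
  simp [dec, Encodable.encodek]

/-- the union slalom. -/
noncomputable def unionSl (φ : Slalom) : Slalom :=
  ⟨fun n => (((narrow φ n).filter (fun c => (dec c).card ≤ Nat.sqrt n)).biUnion dec), by
    intro n
    refine (Finset.card_biUnion_le_card_mul _ _ (Nat.sqrt n) ?_).trans ?_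
    · intro c hc
      exact (Finset.mem_filter.1 hc).2
    · calc _ ≤ Nat.sqrt n * Nat.sqrt n :=
            Nat.mul_le_mul_right _ ((Finset.card_filter_le _ _).trans (narrow_card φ n))
        _ ≤ n := Nat.sqrt_le n⟩

theorem inStar_seq : ∃ x : (bnum inStar).ord.ToType → Baire,
    ∀ y, ∃ b, ∀ β, inStar (x β) y → β ≤ b := by
  obtain ⟨a, hun, hsmall⟩ := exists_enum inStar inStar_unb
  have : NoMaxOrder (bnum inStar).ord.ToType :=
    Cardinal.noMaxOrder (aleph0_le_bnum inStar inStar_unb inStar_fin)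
  have hφ : ∀ β, ∃ φ : Slalom, ∀ γ < β, inStar (pack (a γ)) φ := by
    intro β
    obtain ⟨φ, hφ⟩ := bounded_of_lt_bnum inStar (pack '' (a '' Iio β))
      (lt_of_le_of_lt Cardinal.mk_image_le (hsmall β))
    exact ⟨φ, fun γ hγ => hφ _ ⟨_, ⟨γ, hγ, rfl⟩, rfl⟩⟩
  choose φ hφ using hφ
  -- the code of the narrowed slalom
  refine ⟨fun β => pack (fun n => Encodable.encode (narrow (φ β) n)), fun y => ?_⟩
  by_contra hcon
  push Not at hcon
  refine hun ⟨unionSl y, fun γ => ?_⟩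
  obtain ⟨β, hβ, hlt⟩ := hcon γ
  obtain ⟨N, hN⟩ := narrow_mem y _ hβ
  obtain ⟨M, hM⟩ := narrow_mem (φ β) (a γ) (hφ β γ hlt)
  rw [inStar_iff]
  refine ⟨max N M, fun n hn => ?_⟩
  have h1 := hN n (le_of_max_le_left hn)
  have h2 := hM n (le_of_max_le_right hn)
  simp only [unionSl, Finset.mem_biUnion, Finset.mem_filter]
  refine ⟨_, ⟨h1, ?_⟩, ?_⟩
  · rw [dec_encode]; exact narrow_card _ _
  · rw [dec_encode]; exact h2

theorem inStar_main : (bnum inStar).IsRegular ∧ bnum inStar ≤ 𝔠 ∧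
    dnum inStar {∅} = dGen 𝔠 (bnum inStar) := by
  obtain ⟨x, hx⟩ := inStar_seq
  have h0 := aleph0_le_bnum inStar inStar_unb inStar_fin
  have hreg := isRegular_of_seq inStar h0 (bounded_of_lt_bnum inStar) x hx
  have hc := bnum_le_continuum inStar inStar_unb
  refine ⟨hreg, hc, le_antisymm ?_ ?_⟩
  · exact dnum_le_dGen inStar hreg hc (bounded_of_lt_bnum inStar)
  · refine dGen_le_dnum inStar h0 (fun x => ?_) x hx
    obtain ⟨y, hy⟩ := inStar_fin {x} (Set.finite_singleton x)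
    exact ⟨y, hy x rfl⟩

end Pool.Agent.Helper66.HD
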