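import Pool.Agent.Helper66.HDDefs

open Cardinal Set

namespace Pool.Agent.Helper66.HD

section key

variable {κ : Cardinal.{0}} {W : Type} [LinearOrder W] [WellFoundedLT W]

/-- a monotone cofinal map below `a`. -/
def IsLadder (c : κ.ord.ToType → WithTop W) (a : WithTop W) : Prop :=
  Monotone c ∧ (∀ ν, c ν < a) ∧ ∀ b < a, ∃ ν, b ≤ c ν

open Classical in
/-- The function `h_a : W → κ`. -/
noncomputable def hfun (κ : Cardinal.{0}) [Nonempty κ.ord.ToType]
    (a : WithTop W) (w : W) : κ.ord.ToType :=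
  if h : (∃ c : κ.ord.ToType → WithTop W, IsLadder c a) ∧ (w : WithTop W) < a then
    WellFounded.min (wellFounded_lt (α := κ.ord.ToType))
      {ν | (w : WithTop W) ≤ (Classical.choose h.1) ν}
      ((Classical.choose_spec h.1).2.2 _ h.2)
  else Classical.arbitrary _

theorem key_unbounded [Nonempty κ.ord.ToType] (hκ : ℵ₀ ≤ κ) (B : Set W) (hB : κ ≤ #B) :
    ∃ a : WithTop W, ∀ γ : κ.ord.ToType, ∃ w ∈ B, γ < hfun κ a w := by
  classical
  have : NoMaxOrder κ.ord.ToType := Cardinal.noMaxOrder hκ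
  -- an order embedding of `κ` into `B`
  have h1 : Ordinal.type (α := κ.ord.ToType) (· < ·) ≤ Ordinal.type (α := B) (· < ·) := by
    rw [Ordinal.type_toType]
    rw [Cardinal.ord_le]
    simpa using hB
  obtain ⟨e⟩ := Ordinal.type_le_iff'.1 h1
  have he : StrictMono (fun ν => ((e ν : B) : W)) := by
    intro x y hxy
    exact (e.map_rel_iff.2 hxy)
  set S : Set (WithTop W) := {a | ∀ ν, (((e ν : B) : W) : WithTop W) < a} with hS
  have hSne : S.Nonempty := ⟨⊤, fun ν => WithTop.coe_lt_top _⟩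
  set a := WellFounded.min (wellFounded_lt (α := WithTop W)) S hSne with ha
  have haS : a ∈ S := WellFounded.min_mem _ S hSne
  have hmin : ∀ b < a, ¬ b ∈ S := fun b hb hbS =>
    WellFounded.not_lt_min (wellFounded_lt (α := WithTop W)) S hbS hb
  have hlad : ∃ c : κ.ord.ToType → WithTop W, IsLadder c a := by
    refine ⟨fun ν => (((e ν : B) : W) : WithTop W), ?_, haS, ?_⟩
    · intro x y hxy
      exact WithTop.coe_le_coe.2 (he.monotone hxy)
    · intro b hb
      have := hmin b hb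
      simp only [hS, Set.mem_ofPred_eq, not_forall, not_lt] at this
      exact this
  refine ⟨a, fun γ => ?_⟩
  by_contra hcon
  push Not at hcon
  obtain ⟨hc1, hc2, hc3⟩ := Classical.choose_spec hlad
  set c := Classical.choose hlad with hc
  have key : ∀ ν, (((e ν : B) : W) : WithTop W) ≤ c γ := by
    intro ν
    have hle := hcon (e ν : B) (e ν).2
    have hcond : (∃ c : κ.ord.ToType → WithTop W, IsLadder c a) ∧
        ((((e ν : B) : W)) : WithTop W) < a := ⟨hlad, haS ν⟩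
    have hm : (((e ν : B) : W) : WithTop W) ≤ c (hfun κ a ((e ν : B) : W)) := by
      unfold hfun
      rw [dif_pos hcond]
      exact WellFounded.min_mem (wellFounded_lt (α := κ.ord.ToType))
        {ν' | ((((e ν : B) : W)) : WithTop W) ≤ (Classical.choose hcond.1) ν'} _
    exact hm.trans (hc1 hle)
  refine hmin (c γ) (hc2 γ) ?_
  intro ν
  obtain ⟨ν', hν'⟩ := exists_gt ν
  exact lt_of_lt_of_le (WithTop.coe_lt_coe.2 (he hν')) (key ν')

end key

section general

variable {κ : Cardinal.{0}} {T Y : Type}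

/-- everywhere domination in `κ^T` versus domination modulo sets of size `< κ`. -/
theorem exists_everywhere {W : Type} (hκ : κ.IsRegular) (hW : κ ≤ #W)
    (E : Set (W → κ.ord.ToType))
    (hE : ∀ f : W → κ.ord.ToType, ∃ g ∈ E, #{i | f i > g i} < κ) :
    ∃ E' : Set (W → κ.ord.ToType), #E' ≤ #E ∧ ∀ f : W → κ.ord.ToType, ∃ g ∈ E', ∀ i, f i ≤ g i := by
  classical
  have : NoMaxOrder κ.ord.ToType := Cardinal.noMaxOrder hκ.aleph0_le
  have hne : Nonempty κ.ord.ToType := by
    rw [← Cardinal.mk_ne_zero_iff, Cardinal.mk_ord_toType]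
    exact hκ.ne_zero
  -- small sets are bounded
  have hbd : ∀ S : Set κ.ord.ToType, #S < κ → ∃ b, ∀ s ∈ S, s ≤ b := by
    intro S hS
    by_contra hcon
    push Not at hcon
    have hcof : IsCofinal S := fun b => by
      obtain ⟨s, hs, hbs⟩ := hcon b
      exact ⟨s, hs, hbs.le⟩
    have h1 := Order.cof_le hcof
    rw [Ordinal.cof_toType, hκ.cof_ord] at h1
    exact absurd hS (not_lt.2 h1)
  have hEκ : κ ≤ #E := by
    by_contra hlt
    rw [not_le] at hlt
    have : ∀ i : W, ∃ b : κ.ord.ToType, ∀ g ∈ E, g i < b := by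
      intro i
      obtain ⟨b, hb⟩ := hbd ((fun g : W → κ.ord.ToType => g i) '' E)
        (lt_of_le_of_lt Cardinal.mk_image_le hlt)
      obtain ⟨b', hb'⟩ := exists_gt b
      exact ⟨b', fun g hg => lt_of_le_of_lt (hb _ ⟨g, hg, rfl⟩) hb'⟩
    choose f hf using this
    obtain ⟨g, hg, hlt'⟩ := hE f
    have : {i | f i > g i} = Set.univ := by
      ext i; simp [hf i g hg]
    rw [this, Cardinal.mk_univ] at hlt'
    exact absurd hlt' (not_lt.2 hW)
  refine ⟨(fun p : (W → κ.ord.ToType) × κ.ord.ToType => fun i => max (p.1 i) p.2) ''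
    (E ×ˢ Set.univ), ?_, ?_⟩
  · refine Cardinal.mk_image_le.trans ?_
    rw [Cardinal.mk_setProd, Cardinal.mk_univ, Cardinal.mk_ord_toType]
    have hinf : ℵ₀ ≤ #E := hκ.aleph0_le.trans hEκ
    exact (Cardinal.mul_le_max_of_aleph0_le_left hinf).trans (max_le le_rfl hEκ)
  · intro f
    obtain ⟨g, hg, hlt⟩ := hE f
    obtain ⟨b, hb⟩ := hbd (f '' {i | f i > g i}) (lt_of_le_of_lt Cardinal.mk_image_le hlt)
    refine ⟨_, ⟨(g, b), ⟨hg, mem_univ _⟩, rfl⟩, fun i => ?_⟩
    by_cases h : f i > g i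
    · exact (hb _ ⟨i, h, rfl⟩).trans (le_max_right _ _)
    · exact (not_lt.1 h).trans (le_max_left _ _)

/-- The upper bound: if all sets of size `< κ` are `R`-bounded then a family of functions
`𝔠 → κ` that is dominating everywhere yields an everywhere `R`-dominating family. -/
theorem exists_dom_of_everywhere {W : Type} [LinearOrder W] [WellFoundedLT W]
    (hκ : ℵ₀ ≤ κ) (hW : ℵ₀ ≤ #W) (R : T → Y → Prop)
    (hTW : #T = #W)
    (hR : ∀ A : Set T, #A < κ → ∃ y, ∀ x ∈ A, R x y)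
    (E : Set (W → κ.ord.ToType))
    (hE : ∀ f : W → κ.ord.ToType, ∃ g ∈ E, ∀ i, f i ≤ g i) :
    ∃ D : Set (T → Y), #D ≤ #E ∧ ∀ f : T → T, ∃ g ∈ D, ∀ x, R (f x) (g x) := by
  classical
  have hne : Nonempty κ.ord.ToType := by
    rw [← Cardinal.mk_ne_zero_iff, Cardinal.mk_ord_toType]
    exact (Cardinal.aleph0_pos.trans_le hκ).ne'
  obtain ⟨idx⟩ := Cardinal.eq.1 hTW
  have hcode : #(T × WithTop W) = #W := by
    rw [Cardinal.mk_prod, Cardinal.lift_id, Cardinal.lift_id, hTW]
    have h1 : #(WithTop W) = #W := by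
      have : #(Option W) = #W + 1 := Cardinal.mk_option
      change #(Option W) = #W
      rw [this]
      exact Cardinal.add_one_eq hW
    rw [h1]
    exact Cardinal.mul_eq_self hW
  obtain ⟨code⟩ := Cardinal.eq.1 hcode
  -- the small sets
  set s : (W → κ.ord.ToType) → T → Set W := fun G x =>
    {w | ∀ a : WithTop W, hfun κ a w ≤ G (code (x, a))} with hs
  have hsmall : ∀ G x, #(s G x) < κ := by
    intro G x
    by_contra hcon
    obtain ⟨a, ha⟩ := key_unbounded hκ (s G x) (not_lt.1 hcon)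
    obtain ⟨w, hw, hlt⟩ := ha (G (code (x, a)))
    exact absurd (hw a) (not_le.2 hlt)
  have hy : ∀ G x, ∃ y, ∀ w ∈ s G x, R (idx.symm w) y := by
    intro G x
    obtain ⟨y, hy⟩ := hR (idx.symm '' (s G x)) (lt_of_le_of_lt Cardinal.mk_image_le (hsmall G x))
    exact ⟨y, fun w hw => hy _ ⟨w, hw, rfl⟩⟩
  choose y hy using hy
  refine ⟨(fun G => fun x => y G x) '' E, Cardinal.mk_image_le, fun f => ?_⟩
  obtain ⟨G, hG, hle⟩ := hE (fun i => hfun κ (code.symm i).2 (idx (f (code.symm i).1)))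
  refine ⟨_, ⟨G, hG, rfl⟩, fun x => ?_⟩
  have hmem : idx (f x) ∈ s G x := by
    intro a
    have := hle (code (x, a))
    simpa using this
  have := hy G x _ hmem
  simpa using this

end general

section baire

variable {Y : Type} {κ : Cardinal.{0}}

theorem mk_baire : #Baire = 𝔠 := by
  simp [Baire]

/-- `𝔡(R_{∅}) ≤ 𝔡^𝔠_κ` when `κ ≤ 𝔠` is regular and all sets of size `< κ` are `R`-bounded. -/
theorem dnum_le_dGen (R : Baire → Y → Prop) (hκ : κ.IsRegular) (hκc : κ ≤ 𝔠)
    (hR : ∀ A : Set Baire, #A < κ → ∃ y, ∀ x ∈ A, R x y) :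
    dnum R {∅} ≤ dGen 𝔠 κ := by
  classical
  have hne : {μ | ∃ D : Set (continuum.ord.ToType → κ.ord.ToType), #D = μ ∧
    ∀ f : continuum.ord.ToType → κ.ord.ToType, ∃ g ∈ D, #{α | f α > g α} < κ}.Nonempty := by
    refine ⟨_, Set.univ, rfl, fun f => ⟨f, mem_univ _, ?_⟩⟩
    simpa using hκ.pos
  obtain ⟨E, hEc, hE⟩ := csInf_mem hne
  obtain ⟨E', hE'c, hE'⟩ := exists_everywhere hκ (by simpa using hκc) E hE
  obtain ⟨D, hDc, hD⟩ := exists_dom_of_everywhere (W := continuum.ord.ToType) hκ.aleph0_le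
    (by simpa using Cardinal.aleph0_le_continuum) R (by simp [mk_baire]) hR E' hE'
  have hmem : #D ∈ {κ | ∃ D : Set (Baire → Y), #D = κ ∧
      ∀ f : Baire → Baire, ∃ g ∈ D, relMod R {∅} f g} := by
    refine ⟨D, rfl, fun f => ?_⟩
    obtain ⟨g, hg, h⟩ := hD f
    refine ⟨g, hg, ?_⟩
    simp only [relMod, mem_singleton_iff]
    ext x
    simp [h x]
  calc dnum R {∅} ≤ #D := csInf_le' hmem
    _ ≤ #E' := hDc
    _ ≤ #E := hE'c
    _ = dGen 𝔠 κ := hEc

/-- The lower bound: if there is a `κ`-sequence all of whose `R`-bounded pieces are bounded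
in `κ`, then `𝔡^𝔠_κ ≤ 𝔡(R_{∅})`. -/
theorem dGen_le_dnum (R : Baire → Y → Prop) (hκ : ℵ₀ ≤ κ)
    (hRne : ∀ x, ∃ y, R x y)
    (x : κ.ord.ToType → Baire) (hx : ∀ y, ∃ b, ∀ β, R (x β) y → β ≤ b) :
    dGen 𝔠 κ ≤ dnum R {∅} := by
  classical
  have hne : {κ | ∃ D : Set (Baire → Y), #D = κ ∧
      ∀ f : Baire → Baire, ∃ g ∈ D, relMod R {∅} f g}.Nonempty := by
    refine ⟨_, Set.univ, rfl, fun f => ?_⟩
    choose r hr using hRne
    refine ⟨fun t => r (f t), mem_univ _, ?_⟩
    simp only [relMod, mem_singleton_iff]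
    ext t
    simp [hr]
  obtain ⟨D, hDc, hD⟩ := csInf_mem hne
  obtain ⟨idx⟩ := Cardinal.eq.1 (show #Baire = #(continuum.ord.ToType) by simp [mk_baire])
  choose b hb using hx
  set E : Set (continuum.ord.ToType → κ.ord.ToType) :=
    (fun g : Baire → Y => fun w => b (g (idx.symm w))) '' D with hE
  have hmem : #E ∈ {μ | ∃ D : Set (continuum.ord.ToType → κ.ord.ToType), #D = μ ∧
    ∀ f : continuum.ord.ToType → κ.ord.ToType, ∃ g ∈ D, #{α | f α > g α} < κ} := by
    refine ⟨E, rfl, fun f => ?_⟩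
    obtain ⟨g, hg, hrel⟩ := hD (fun t => x (f (idx t)))
    refine ⟨_, ⟨g, hg, rfl⟩, ?_⟩
    have : {α | f α > b (g (idx.symm α))} = ∅ := by
      ext α
      simp only [relMod, mem_singleton_iff] at hrel
      have h1 : R (x (f (idx (idx.symm α)))) (g (idx.symm α)) := by
        by_contra hcon
        have : idx.symm α ∈ ({x_1 | ¬R (x (f (idx x_1))) (g x_1)} : Set Baire) := hcon
        rw [hrel] at this
        exact this
      simp only [Equiv.apply_symm_apply] at h1
      simpa using hb _ _ h1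
    have h0 : #{α | f α > b (g (idx.symm α))} = 0 := by
      rw [this]; simp
    exact h0.trans_lt (Cardinal.aleph0_pos.trans_le hκ)
  calc dGen 𝔠 κ ≤ #E := csInf_le' hmem
    _ ≤ #D := Cardinal.mk_image_le
    _ = dnum R {∅} := hDc

end baire

end Pool.Agent.Helper66.HD
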