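import Pool.Agent.Helper66.HDLeIn

open Cardinal Set Filter

namespace Pool.Agent.Helper66.HD

/-- guessing all of at most `θ` partial functions with positive domains. -/
def Guess (K : Type) (θ : Cardinal.{0}) {X : Type} (l : Filter X) : Prop :=
  ∀ (I : Type), #I ≤ θ → ∀ (A : I → Set X) (g : I → X → K), (∀ i, ∃ᶠ x in l, x ∈ A i) →
    ∃ f : X → K, ∀ i, ∃ x ∈ A i, f x = g i x

/-- there is a countably complete filter on a set of size `≤ 𝔠` with guessing. -/
def Good (K : Type) (θ : Cardinal.{0}) : Prop :=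
  ∃ (X : Type) (l : Filter X), #X ≤ 𝔠 ∧ l.NeBot ∧ CountableInterFilter l ∧ Guess K θ l

theorem Guess.surj {K K' X : Type} {θ : Cardinal.{0}} {l : Filter X} (h : Guess K θ l)
    (s : K → K') (hs : Function.Surjective s) : Guess K' θ l := by
  intro I hI A g hA
  obtain ⟨f, hf⟩ := h I hI A (fun i x => Function.surjInv hs (g i x)) hA
  refine ⟨fun x => s (f x), fun i => ?_⟩
  obtain ⟨x, hx, hfx⟩ := hf i
  refine ⟨x, hx, ?_⟩
  simp only [hfx]
  exact Function.surjInv_eq hs _

theorem Good.surj {K K' : Type} {θ : Cardinal.{0}} (h : Good K θ)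
    (s : K → K') (hs : Function.Surjective s) : Good K' θ := by
  obtain ⟨X, l, h1, h2, h3, h4⟩ := h
  exact ⟨X, l, h1, h2, h3, h4.surj s hs⟩

theorem Guess.pull {K X X' : Type} {θ : Cardinal.{0}} {l : Filter X} {l' : Filter X'}
    (h : Guess K θ l) (π : X' → X) (hπ : Tendsto π l' l) : Guess K θ l' := by
  classical
  intro I hI A g hA
  have hpt : ∀ i, ∃ x, x ∈ A i := fun i => (hA i).exists
  choose pt hpt using hpt
  obtain ⟨f, hf⟩ := h I hI (fun i => π '' A i)
    (fun i z => if h : ∃ x, x ∈ A i ∧ π x = z then g i h.choose else g i (pt i)) (fun i => by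
      intro hcon
      refine hA i ?_
      filter_upwards [hπ.eventually hcon] with x hx hxA
      exact hx ⟨x, hxA, rfl⟩)
  refine ⟨fun x => f (π x), fun i => ?_⟩
  obtain ⟨z, hz, hfz⟩ := hf i
  have hz' : ∃ x, x ∈ A i ∧ π x = z := hz
  rw [dif_pos hz'] at hfz
  refine ⟨hz'.choose, hz'.choose_spec.1, ?_⟩
  rw [← hfz]
  exact congrArg f hz'.choose_spec.2

section base

theorem exists_inj_choice {α : Type*} (Z : ℕ → Set α) (hZ : ∀ j, (Z j).Infinite) :
    ∃ y : ℕ → α, Function.Injective y ∧ ∀ j, y j ∈ Z j := by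
  classical
  have h : ∀ (j : ℕ) (s : Finset α), ∃ a, a ∈ Z j ∧ a ∉ s := fun j s =>
    (hZ j).exists_notMem_finset s
  choose F hF1 hF2 using h
  let G : ℕ → Finset α := fun n => Nat.rec ∅ (fun j s => insert (F j s) s) n
  have hG : ∀ j, G (j + 1) = insert (F j (G j)) (G j) := fun j => rfl
  have hmono : ∀ i j, i ≤ j → G i ⊆ G j := by
    intro i j hij
    induction j, hij using Nat.le_induction with
    | base => exact Finset.Subset.refl _
    | succ n _ ih => rw [hG]; exact ih.trans (Finset.subset_insert _ _)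
  have hlt : ∀ i j, i < j → F i (G i) ≠ F j (G j) := by
    intro i j hij heq
    have h1 : F i (G i) ∈ G j := by
      apply hmono (i + 1) j hij
      rw [hG]; exact Finset.mem_insert_self _ _
    rw [heq] at h1
    exact hF2 j (G j) h1
  refine ⟨fun j => F j (G j), ?_, fun j => hF1 j (G j)⟩
  intro i j hij
  rcases lt_trichotomy i j with h | h | h
  · exact absurd hij (hlt i j h)
  · exact h
  · exact absurd hij.symm (hlt j i h)

/-- coordinates of the base step -/
abbrev X0 : Type := (ℕ → Baire) × (ℕ → (ℕ → Bool) × ℕ)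

open Classical in
/-- evaluation of a countable partial function. -/
noncomputable def val (σ : ℕ → (ℕ → Bool) × ℕ) (z : ℕ → Bool) : ℕ :=
  if h : ∃ n, (σ n).1 = z then (σ (Nat.find h)).2 else 0

theorem val_eq (σ : ℕ → (ℕ → Bool) × ℕ) (hσ : Function.Injective (fun n => (σ n).1)) (j : ℕ) :
    val σ (σ j).1 = (σ j).2 := by
  classical
  have h : ∃ n, (σ n).1 = (σ j).1 := ⟨j, rfl⟩
  unfold val
  rw [dif_pos h]
  have := hσ (Nat.find_spec h)
  rw [this]

/-- the independent family. -/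
noncomputable def fx (x : Baire → Bool) (ξ : X0) : ℕ := val ξ.2 (fun n => x (ξ.1 n))

/-- coordinates where the sequence takes every value. -/
def CQ (Q : ℕ → (Baire → Bool)) : Set X0 := {ξ | ∀ k, ∃ n, fx (Q n) ξ = k}

theorem key0 (Q : ℕ → ℕ → (Baire → Bool)) (hQ : ∀ m, Function.Injective (Q m)) :
    ∃ ξ : X0, ∀ m, ξ ∈ CQ (Q m) := by
  classical
  have hw : ∀ m n n', ∃ c : Baire, n ≠ n' → Q m n c ≠ Q m n' c := by
    intro m n n'
    by_cases h : n = n'
    · exact ⟨fun _ => 0, fun hh => absurd h hh⟩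
    · have h1 : Q m n ≠ Q m n' := fun hh => h (hQ m hh)
      obtain ⟨c, hc⟩ := Function.ne_iff.1 h1
      exact ⟨c, fun _ => hc⟩
  choose w hw using hw
  set a : ℕ → Baire := fun j => w j.unpair.1 j.unpair.2.unpair.1 j.unpair.2.unpair.2 with ha
  have hainj : ∀ m, Function.Injective (fun n => (fun j => Q m n (a j) : ℕ → Bool)) := by
    intro m n n' h
    by_contra hne
    have h1 := congrFun h (Nat.pair m (Nat.pair n n'))
    simp only [ha, Nat.unpair_pair] at h1
    exact hw m n n' hne h1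
  obtain ⟨y, hy1, hy2⟩ := exists_inj_choice
    (fun j => range (fun n => (fun i => Q j.unpair.1 n (a i) : ℕ → Bool)))
    (fun j => Set.infinite_range_of_injective (hainj _))
  refine ⟨(a, fun j => (y j, j.unpair.2)), fun m k => ?_⟩
  obtain ⟨n, hn⟩ := hy2 (Nat.pair m k)
  simp only [Nat.unpair_pair] at hn
  refine ⟨n, ?_⟩
  unfold fx
  simp only
  rw [hn]
  have := val_eq (fun j => (y j, j.unpair.2)) hy1 (Nat.pair m k)
  simpa using this

/-- the base filter -/
noncomputable def l0 : Filter X0 :=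
  countableGenerate {s | ∃ Q : ℕ → (Baire → Bool), Function.Injective Q ∧ s = CQ Q}

theorem l0_neBot : l0.NeBot := by
  rw [Filter.neBot_iff, Ne, ← Filter.empty_mem_iff_bot]
  intro h
  unfold l0 at h
  rw [mem_countableGenerate_iff] at h
  obtain ⟨S, hS1, hS2, hS3⟩ := h
  rcases S.eq_empty_or_nonempty with rfl | hne
  · simp at hS3
  · obtain ⟨s, hs⟩ := hS2.exists_eq_range hne
    have h1 : ∀ m, ∃ Q : ℕ → (Baire → Bool), Function.Injective Q ∧ s m = CQ Q := by
      intro m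
      exact hS1 (hs ▸ mem_range_self m)
    choose Q hQ1 hQ2 using h1
    obtain ⟨ξ, hξ⟩ := key0 Q hQ1
    have : ξ ∈ ⋂₀ S := by
      intro t ht
      rw [hs] at ht
      obtain ⟨m, rfl⟩ := ht
      rw [hQ2]; exact hξ m
    exact hS3 this

theorem base_guess (θ : Cardinal.{0}) (hθ : θ < 2 ^ 𝔠) : Guess ℕ θ l0 := by
  classical
  intro I hI A g hA
  set Bad : I → Set (Baire → Bool) := fun i => {x | ∀ ξ ∈ A i, fx x ξ ≠ g i ξ} with hBad
  have hfin : ∀ i, (Bad i).Finite := by
    intro i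
    by_contra hinf
    have hinf' : (Bad i).Infinite := hinf
    set Q : ℕ → (Baire → Bool) := fun n => (hinf'.natEmbedding _ n : Baire → Bool) with hQ
    have hQinj : Function.Injective Q := fun a b hab =>
      (hinf'.natEmbedding _).injective (Subtype.ext hab)
    have hmem : CQ Q ∈ l0 := by
      unfold l0
      exact CountableGenerateSets.basic ⟨Q, hQinj, rfl⟩
    obtain ⟨ξ, hξ1, hξ2⟩ := Filter.frequently_iff.1 (hA i) hmem
    obtain ⟨n, hn⟩ := hξ1 (g i ξ)
    exact (hinf'.natEmbedding _ n).2 ξ hξ2 hn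
  have hcard : #(⋃ i, Bad i : Set (Baire → Bool)) < #(Baire → Bool) := by
    have h1 : #(⋃ i, Bad i : Set (Baire → Bool)) ≤ Cardinal.sum (fun i => #(Bad i)) :=
      Cardinal.mk_iUnion_le_sum_mk
    have h2 : Cardinal.sum (fun i => #(Bad i)) ≤ Cardinal.sum (fun _ : I => ℵ₀) :=
      Cardinal.sum_le_sum _ _ fun i => (Cardinal.lt_aleph0_iff_set_finite.2 (hfin i)).le
    have h3 : Cardinal.sum (fun _ : I => ℵ₀) = #I * ℵ₀ := by simp
    have h4 : #I * ℵ₀ ≤ max (max #I ℵ₀) ℵ₀ := Cardinal.mul_le_max _ _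
    have h5 : #(Baire → Bool) = 2 ^ 𝔠 := by simp
    rw [h5]
    refine lt_of_le_of_lt (h1.trans (h2.trans (h3.le.trans h4))) ?_
    have h6 : ℵ₀ < 2 ^ 𝔠 := (Cardinal.aleph0_le_continuum).trans_lt (Cardinal.cantor _)
    exact max_lt (max_lt (hI.trans_lt hθ) h6) h6
  obtain ⟨x, hx⟩ : ∃ x, x ∉ ⋃ i, Bad i := by
    by_contra hcon
    push Not at hcon
    have : (⋃ i, Bad i) = Set.univ := Set.eq_univ_of_forall hcon
    rw [this, Cardinal.mk_univ] at hcard
    exact lt_irrefl _ hcard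
  refine ⟨fx x, fun i => ?_⟩
  simp only [hBad, Set.mem_iUnion, Set.mem_ofPred_eq, not_exists, not_forall, not_not] at hx
  obtain ⟨ξ, hξ, hne⟩ := hx i
  exact ⟨ξ, hξ, hne⟩

theorem base_good (θ : Cardinal.{0}) (hθ : θ < 2 ^ 𝔠) : Good ℕ θ := by
  refine ⟨X0, l0, ?_, l0_neBot, ?_, base_guess θ hθ⟩
  · simp [X0, Baire]
  · unfold l0; infer_instance

end base

section succ

/-- no family of size `≤ θ` dominates all functions. -/
def NotDom (W : Type) [LT W] (θ : Cardinal.{0}) : Prop :=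
  ∀ (I : Type), #I ≤ θ → ∀ g : I → Baire → W, ∃ h : Baire → W, ∀ i, ∃ c, g i c < h c

/-- the filter of cones -/
noncomputable def lT : Filter (ℕ → Baire) :=
  countableGenerate {s | ∃ c : Baire, s = {a | c ∈ range a}}

theorem lT_neBot : lT.NeBot := by
  rw [Filter.neBot_iff, Ne, ← Filter.empty_mem_iff_bot]
  intro h
  unfold lT at h
  rw [mem_countableGenerate_iff] at h
  obtain ⟨S, hS1, hS2, hS3⟩ := h
  rcases S.eq_empty_or_nonempty with rfl | hne
  · simp at hS3
  · obtain ⟨s, hs⟩ := hS2.exists_eq_range hne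
    have h1 : ∀ m, ∃ c : Baire, s m = {a | c ∈ range a} := by
      intro m
      exact hS1 (hs ▸ mem_range_self m)
    choose c hc using h1
    have : c ∈ ⋂₀ S := by
      intro t ht
      rw [hs] at ht
      obtain ⟨m, rfl⟩ := ht
      rw [hc]
      exact ⟨m, rfl⟩
    exact hS3 this

theorem upgrade {W : Type} [LinearOrder W] (hW : ∀ s : ℕ → W, ∃ b, ∀ n, s n ≤ b)
    {θ : Cardinal.{0}} (h : NotDom W θ) (I : Type) (hI : #I ≤ θ) (A : I → Set (ℕ → Baire))
    (g : I → (ℕ → Baire) → W) (hA : ∀ i, ∃ᶠ a in lT, a ∈ A i) :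
    ∃ h : (ℕ → Baire) → W, ∀ i, ∃ a ∈ A i, g i a < h a := by
  have h1 : ∀ i c, ∃ a ∈ A i, c ∈ range a := by
    intro i c
    have hmem : {a : ℕ → Baire | c ∈ range a} ∈ lT := CountableGenerateSets.basic ⟨c, rfl⟩
    obtain ⟨a, ha1, ha2⟩ := Filter.frequently_iff.1 (hA i) hmem
    exact ⟨a, ha2, ha1⟩
  choose a ha1 ha2 using h1
  obtain ⟨f, hf⟩ := h I hI (fun i c => g i (a i c))
  choose b hb using fun t : ℕ → Baire => hW (fun n => f (t n))
  refine ⟨b, fun i => ?_⟩
  obtain ⟨c, hc⟩ := hf i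
  refine ⟨a i c, ha1 i c, hc.trans_le ?_⟩
  obtain ⟨n, hn⟩ := ha2 i c
  have := hb (a i c) n
  rwa [hn] at this

theorem curry_neBot {α β : Type*} (l : Filter α) (m : Filter β) [l.NeBot] [m.NeBot] :
    (l.curry m).NeBot := by
  rw [Filter.neBot_iff, Ne, ← Filter.empty_mem_iff_bot]
  intro h
  have h1 : ∀ᶠ x in l.curry m, x ∈ (∅ : Set (α × β)) := h
  rw [eventually_curry_iff] at h1
  simp only [Set.mem_empty_iff_false, eventually_false_iff_eq_bot] at h1
  have h2 : m = ⊥ := by simpa using h1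
  exact Filter.NeBot.ne inferInstance h2

theorem curry_countableInter {α β : Type*} (l : Filter α) (m : Filter β)
    [CountableInterFilter l] [CountableInterFilter m] : CountableInterFilter (l.curry m) := by
  constructor
  intro S hS h
  have h1 : ∀ s ∈ S, ∀ᶠ x in l, ∀ᶠ y in m, (x, y) ∈ s := by
    intro s hs
    exact eventually_curry_iff.1 (h s hs)
  change ∀ᶠ x in l.curry m, x ∈ ⋂₀ S
  rw [eventually_curry_iff]
  have h2 : ∀ᶠ x in l, ∀ s ∈ S, ∀ᶠ y in m, (x, y) ∈ s := (eventually_countable_ball hS).2 h1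
  filter_upwards [h2] with x hx
  have h3 : ∀ᶠ y in m, ∀ s ∈ S, (x, y) ∈ s := (eventually_countable_ball hS).2 hx
  filter_upwards [h3] with y hy
  exact hy

theorem succ_good {W M : Type} [LinearOrder W] (hW : ∀ s : ℕ → W, ∃ b, ∀ n, s n ≤ b)
    (e : W → W → M) (he : ∀ w, InjOn (e w) (Iio w)) {θ : Cardinal.{0}} (hθ : 𝔠 ≤ θ)
    (hN : NotDom W θ) (hM : Good M θ) : Good W θ := by
  classical
  obtain ⟨S, l, hS, hl1, hl2, hG⟩ := hM
  have := lT_neBot
  have hT2 : CountableInterFilter lT := by unfold lT; infer_instance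
  refine ⟨S × (ℕ → Baire), l.curry lT, ?_, curry_neBot _ _, curry_countableInter _ _, ?_⟩
  · rw [Cardinal.mk_prod, Cardinal.lift_id, Cardinal.lift_id]
    have : #(ℕ → Baire) = 𝔠 := by simp [Baire]
    rw [this]
    exact (mul_le_mul_left hS 𝔠).trans (by simp)
  intro I hI A g hA
  have hWne : Nonempty W := ⟨(hW (fun _ => Classical.choice
    (by
      by_contra hcon
      rw [not_nonempty_iff] at hcon
      obtain ⟨h, _⟩ := hN PEmpty (by simp) (fun i => i.elim)
      exact hcon.elim (h (fun _ => 0))))).choose⟩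
  -- positive sections
  set J : Type := {p : I × S // ∃ᶠ t in lT, (p.2, t) ∈ A p.1} with hJ
  have hJc : #J ≤ θ := by
    refine (Cardinal.mk_subtype_le _).trans ?_
    rw [Cardinal.mk_prod, Cardinal.lift_id, Cardinal.lift_id]
    calc #I * #S ≤ θ * θ := mul_le_mul' hI (hS.trans hθ)
      _ = θ := Cardinal.mul_eq_self (Cardinal.aleph0_le_continuum.trans hθ)
  obtain ⟨h, hh⟩ := upgrade hW hN J hJc (fun j => {t | (j.1.2, t) ∈ A j.1.1})
    (fun j t => g j.1.1 (j.1.2, t)) (fun j => j.2)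
  choose τ hτ1 hτ2 using hh
  set Si : I → Set S := fun i => {s | ∃ᶠ t in lT, (s, t) ∈ A i} with hSi
  have hSpos : ∀ i, ∃ᶠ s in l, s ∈ Si i := by
    intro i
    exact (frequently_curry_iff _).1 (hA i)
  obtain ⟨r, hr⟩ := hG I hI Si (fun i s => if hs : s ∈ Si i then
    e (h (τ ⟨(i, s), hs⟩)) (g i (s, τ ⟨(i, s), hs⟩)) else e (Classical.choice hWne)
      (Classical.choice hWne)) hSpos
  refine ⟨fun p => if hp : ∃ w, w < h p.2 ∧ e (h p.2) w = r p.1 then hp.choose
    else Classical.choice hWne, fun i => ?_⟩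
  obtain ⟨s, hs, hrs⟩ := hr i
  rw [dif_pos hs] at hrs
  refine ⟨(s, τ ⟨(i, s), hs⟩), hτ1 ⟨(i, s), hs⟩, ?_⟩
  have hlt : g i (s, τ ⟨(i, s), hs⟩) < h (τ ⟨(i, s), hs⟩) := hτ2 ⟨(i, s), hs⟩
  have hp : ∃ w, w < h (τ ⟨(i, s), hs⟩) ∧ e (h (τ ⟨(i, s), hs⟩)) w = r s :=
    ⟨_, hlt, hrs.symm⟩
  simp only
  rw [dif_pos hp]
  exact he _ hp.choose_spec.1 hlt (hp.choose_spec.2.trans hrs)

end succ

section limit

/-- the box filter -/
def boxFilter {N : Type} {X : N → Type} (l : ∀ n, Filter (X n)) : Filter (∀ n, X n) where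
  sets := {A | ∃ B : ∀ n, Set (X n), (∀ n, B n ∈ l n) ∧ {x | ∀ n, x n ∈ B n} ⊆ A}
  univ_sets := ⟨fun _ => Set.univ, fun _ => univ_mem, fun _ _ => trivial⟩
  sets_of_superset := by
    rintro A A' ⟨B, hB1, hB2⟩ hAA'
    exact ⟨B, hB1, hB2.trans hAA'⟩
  inter_sets := by
    rintro A A' ⟨B, hB1, hB2⟩ ⟨B', hB1', hB2'⟩
    refine ⟨fun n => B n ∩ B' n, fun n => inter_mem (hB1 n) (hB1' n), fun x hx => ⟨?_, ?_⟩⟩
    · exact hB2 fun n => (hx n).1
    · exact hB2' fun n => (hx n).2

theorem boxFilter_neBot {N : Type} {X : N → Type} (l : ∀ n, Filter (X n)) (h : ∀ n, (l n).NeBot) :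
    (boxFilter l).NeBot := by
  rw [Filter.neBot_iff, Ne, ← Filter.empty_mem_iff_bot]
  rintro ⟨B, hB1, hB2⟩
  have : ∀ n, (B n).Nonempty := fun n => (h n).nonempty_of_mem (hB1 n)
  choose x hx using this
  have h3 : x ∈ (∅ : Set (∀ n, X n)) := hB2 hx
  exact h3

theorem boxFilter_countableInter {N : Type} {X : N → Type} (l : ∀ n, Filter (X n))
    (h : ∀ n, CountableInterFilter (l n)) : CountableInterFilter (boxFilter l) := by
  constructor
  intro S hS hSl
  have h1 : ∀ s : S, ∃ B : ∀ n, Set (X n), (∀ n, B n ∈ l n) ∧ {x | ∀ n, x n ∈ B n} ⊆ s.1 :=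
    fun s => hSl s.1 s.2
  choose B hB1 hB2 using h1
  have : Countable S := hS.to_subtype
  refine ⟨fun n => ⋂ s : S, B s n, fun n => ?_, ?_⟩
  · exact countable_iInter_mem.2 fun s => hB1 s n
  · intro x hx s hs
    apply hB2 ⟨s, hs⟩
    intro n
    exact Set.mem_iInter.1 (hx n) ⟨s, hs⟩

theorem boxFilter_tendsto {N : Type} {X : N → Type} (l : ∀ n, Filter (X n)) (n : N) :
    Tendsto (fun x : ∀ n, X n => x n) (boxFilter l) (l n) := by
  intro B hB
  refine ⟨fun m => {y : X m | ∀ h : m = n, (h ▸ y) ∈ B}, ?_, ?_⟩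
  · intro m
    by_cases h : m = n
    · subst h
      filter_upwards [hB] with y hy
      intro _
      exact hy
    · filter_upwards with y
      intro hh; exact absurd hh h
  · intro x hx
    exact hx n rfl

theorem limit_good {K N : Type} [Countable N] [Nonempty N] [Nonempty K] (Kn : N → Type)
    (ι : ∀ n, Kn n → K)
    (hcov : ∀ k, ∃ n, k ∈ range (ι n)) {θ : Cardinal.{0}} (hθ : 𝔠 ≤ θ)
    (hN : Good ℕ θ) (hK : ∀ n, Good (Kn n) θ) : Good K θ := by
  classical
  have hN' : Good N θ := by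
    obtain ⟨s, hs⟩ := exists_surjective_nat N
    exact hN.surj s hs
  obtain ⟨U, lU, hU, hlU1, hlU2, hGU⟩ := hN'
  choose X l hX hl1 hl2 hG using hK
  have hb1 := boxFilter_neBot l hl1
  have hb2 := boxFilter_countableInter l hl2
  refine ⟨U × (∀ n, X n), lU.curry (boxFilter l), ?_, curry_neBot _ _,
    curry_countableInter _ _, ?_⟩
  · rw [Cardinal.mk_prod, Cardinal.lift_id, Cardinal.lift_id, Cardinal.mk_pi]
    have h1 : Cardinal.prod (fun n => #(X n)) ≤ 𝔠 := by
      refine (Cardinal.prod_le_prod _ (fun _ : N => 𝔠) hX).trans ?_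
      rw [Cardinal.prod_const, Cardinal.lift_id, Cardinal.lift_id]
      calc 𝔠 ^ #N ≤ 𝔠 ^ ℵ₀ := Cardinal.power_le_power_left Cardinal.continuum_ne_zero
            (Cardinal.mk_le_aleph0)
        _ = 𝔠 := by simp
    calc #U * Cardinal.prod (fun n => #(X n)) ≤ 𝔠 * 𝔠 := mul_le_mul' hU h1
      _ = 𝔠 := by simp
  intro I hI A g hA
  have hKne : Nonempty K := inferInstance
  set Ui : I → Set U := fun i => {u | ∃ᶠ x in boxFilter l, (u, x) ∈ A i} with hUi
  have hUpos : ∀ i, ∃ᶠ u in lU, u ∈ Ui i := fun i => (frequently_curry_iff _).1 (hA i)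
  have hsplit : ∀ i, ∀ u ∈ Ui i, ∃ n, ∃ᶠ x in boxFilter l, (u, x) ∈ A i ∧
      g i (u, x) ∈ range (ι n) := by
    intro i u hu
    by_contra hcon
    push Not at hcon
    have h1 : ∀ᶠ x in boxFilter l, ∀ n, ¬ ((u, x) ∈ A i ∧ g i (u, x) ∈ range (ι n)) :=
      eventually_countable_forall.2 (fun n => by
        filter_upwards [hcon n] with x hx
        rintro ⟨h3, h4⟩
        exact hx h3 h4)
    have h2 : ∃ᶠ x in boxFilter l, (u, x) ∈ A i := hu
    obtain ⟨x, hx1, hx2⟩ := (h2.and_eventually h1).exists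
    obtain ⟨n, hn⟩ := hcov (g i (u, x))
    exact hx2 n ⟨hx1, hn⟩
  have hNn : Nonempty N := inferInstance
  obtain ⟨ν, hν⟩ := hGU I hI Ui (fun i u => if hu : u ∈ Ui i then (hsplit i u hu).choose
    else Classical.choice hNn) hUpos
  -- meeting on each level
  have hlev : ∀ n, ∃ f : (∀ n, X n) → Kn n, ∀ (i : I) (u : U),
      (∃ᶠ x in boxFilter l, (u, x) ∈ A i ∧ g i (u, x) ∈ range (ι n)) →
      ∃ x, (u, x) ∈ A i ∧ ι n (f x) = g i (u, x) := by
    intro n
    by_cases hne : Nonempty (Kn n)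
    · set J : Type := {p : I × U // ∃ᶠ x in boxFilter l, (p.2, x) ∈ A p.1 ∧
        g p.1 (p.2, x) ∈ range (ι n)} with hJ
      have hJc : #J ≤ θ := by
        refine (Cardinal.mk_subtype_le _).trans ?_
        rw [Cardinal.mk_prod, Cardinal.lift_id, Cardinal.lift_id]
        calc #I * #U ≤ θ * θ := mul_le_mul' hI (hU.trans hθ)
          _ = θ := Cardinal.mul_eq_self (Cardinal.aleph0_le_continuum.trans hθ)
      obtain ⟨f, hf⟩ := ((hG n).pull _ (boxFilter_tendsto l n)) J hJc
        (fun j => {x | (j.1.2, x) ∈ A j.1.1 ∧ g j.1.1 (j.1.2, x) ∈ range (ι n)})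
        (fun j x => if hx : g j.1.1 (j.1.2, x) ∈ range (ι n) then hx.choose
          else Classical.choice hne) (fun j => j.2)
      refine ⟨f, fun i u hiu => ?_⟩
      obtain ⟨x, hx, hfx⟩ := hf ⟨(i, u), hiu⟩
      have hx2 : g i (u, x) ∈ range (ι n) := hx.2
      rw [dif_pos hx2] at hfx
      refine ⟨x, hx.1, ?_⟩
      rw [hfx]
      exact hx2.choose_spec
    · exfalso
      obtain ⟨f, _⟩ := hG n PEmpty (by simp) (fun i => i.elim) (fun i => i.elim)
        (fun i => i.elim)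
      obtain ⟨x⟩ := (hl1 n).nonempty
      exact hne ⟨f x⟩
  choose f hf using hlev
  refine ⟨fun p => ι (ν p.1) (f (ν p.1) p.2), fun i => ?_⟩
  obtain ⟨u, hu, hνu⟩ := hν i
  rw [dif_pos hu] at hνu
  have h1 := (hsplit i u hu).choose_spec
  rw [← hνu] at h1
  obtain ⟨x, hx1, hx2⟩ := hf (ν u) i u h1
  exact ⟨(u, x), hx1, hx2⟩

end limit

section dom

variable {κ : Cardinal.{0}}

/-- Everywhere domination for functions into `κ` gives everywhere `R`-domination. -/
theorem exists_dom' {W X T Y : Type} [LinearOrder W] [WellFoundedLT W]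
    (hκ : ℵ₀ ≤ κ) (hW : ℵ₀ ≤ #W) (R : T → Y → Prop) (hT : #T ≤ #W) (hX : #X ≤ #W)
    (hR : ∀ A : Set T, #A < κ → ∃ y, ∀ x ∈ A, R x y)
    {I : Type} (E : I → W → κ.ord.ToType)
    (hE : ∀ f : W → κ.ord.ToType, ∃ i, ∀ w, f w ≤ E i w) :
    ∃ D : I → X → Y, ∀ f : X → T, ∃ i, ∀ x, R (f x) (D i x) := by
  classical
  have hne : Nonempty κ.ord.ToType := by
    rw [← Cardinal.mk_ne_zero_iff, Cardinal.mk_ord_toType]
    exact (Cardinal.aleph0_pos.trans_le hκ).ne'
  obtain ⟨idx⟩ := Cardinal.le_def _ _ |>.1 hT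
  have hcode : #(X × WithTop W) ≤ #W := by
    rw [Cardinal.mk_prod, Cardinal.lift_id, Cardinal.lift_id]
    have h1 : #(WithTop W) = #W := by
      have : #(Option W) = #W + 1 := Cardinal.mk_option
      change #(Option W) = #W
      rw [this]
      exact Cardinal.add_one_eq hW
    rw [h1]
    calc #X * #W ≤ #W * #W := mul_le_mul' hX le_rfl
      _ = #W := Cardinal.mul_eq_self hW
  obtain ⟨code⟩ := Cardinal.le_def _ _ |>.1 hcode
  set s : (W → κ.ord.ToType) → X → Set W := fun G x =>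
    {w | ∀ a : WithTop W, hfun κ a w ≤ G (code (x, a))} with hs
  have hsmall : ∀ G x, #(s G x) < κ := by
    intro G x
    by_contra hcon
    obtain ⟨a, ha⟩ := key_unbounded hκ (s G x) (not_lt.1 hcon)
    obtain ⟨w, hw, hlt⟩ := ha (G (code (x, a)))
    exact absurd (hw a) (not_le.2 hlt)
  have hy : ∀ G x, ∃ y, ∀ t, idx t ∈ s G x → R t y := by
    intro G x
    obtain ⟨y, hy⟩ := hR (idx ⁻¹' (s G x)) (lt_of_le_of_lt
      (Cardinal.mk_preimage_of_injective _ _ idx.injective) (hsmall G x))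
    exact ⟨y, fun t ht => hy _ ht⟩
  choose y hy using hy
  refine ⟨fun i x => y (E i) x, fun f => ?_⟩
  obtain ⟨i, hle⟩ := hE (fun w => if h : ∃ p : X × WithTop W, code p = w then
    hfun κ h.choose.2 (idx (f h.choose.1)) else Classical.choice hne)
  refine ⟨i, fun x => hy _ _ _ ?_⟩
  intro a
  have h1 := hle (code (x, a))
  have hex : ∃ p : X × WithTop W, code p = code (x, a) := ⟨_, rfl⟩
  rw [dif_pos hex] at h1
  have h2 : hex.choose = (x, a) := code.injective hex.choose_spec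
  rw [h2] at h1
  exact h1

theorem dGen_le_of_dom (hκ : 0 < κ) {I : Type} (D : I → Baire → κ.ord.ToType)
    (hD : ∀ f : Baire → κ.ord.ToType, ∃ i, ∀ x, f x ≤ D i x) : dGen 𝔠 κ ≤ #I := by
  obtain ⟨idx⟩ := Cardinal.eq.1 (show #Baire = #(continuum.ord.ToType) by simp)
  have hmem : #(range (fun i => fun w : continuum.ord.ToType => D i (idx.symm w))) ∈
      {μ | ∃ D : Set (continuum.ord.ToType → κ.ord.ToType), #D = μ ∧
        ∀ f : continuum.ord.ToType → κ.ord.ToType, ∃ g ∈ D, #{α | f α > g α} < κ} := by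
    refine ⟨_, rfl, fun f => ?_⟩
    obtain ⟨i, hi⟩ := hD (fun x => f (idx x))
    refine ⟨_, ⟨i, rfl⟩, ?_⟩
    have : {α | f α > D i (idx.symm α)} = ∅ := by
      ext α
      have := hi (idx.symm α)
      simpa using this
    have h0 : #{α | f α > D i (idx.symm α)} = 0 := by
      rw [this]; simp
    exact h0.trans_lt hκ
  exact (csInf_le' hmem).trans Cardinal.mk_range_le

theorem exists_dom_of_dGen (hκ : κ.IsRegular) (hκc : κ ≤ 𝔠) :
    ∃ E : Set (continuum.ord.ToType → κ.ord.ToType), #E ≤ dGen 𝔠 κ ∧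
      ∀ f : continuum.ord.ToType → κ.ord.ToType, ∃ g ∈ E, ∀ i, f i ≤ g i := by
  have hne : {μ | ∃ D : Set (continuum.ord.ToType → κ.ord.ToType), #D = μ ∧
    ∀ f : continuum.ord.ToType → κ.ord.ToType, ∃ g ∈ D, #{α | f α > g α} < κ}.Nonempty := by
    refine ⟨_, Set.univ, rfl, fun f => ⟨f, mem_univ _, ?_⟩⟩
    simpa using hκ.pos
  obtain ⟨E, hEc, hE⟩ := csInf_mem hne
  obtain ⟨E', hE'c, hE'⟩ := exists_everywhere hκ (by simpa using hκc) E hE
  exact ⟨E', hE'c.trans hEc.le, hE'⟩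

theorem continuum_lt_dGen (hκ : κ.IsRegular) (hκc : κ ≤ 𝔠) : 𝔠 < dGen 𝔠 κ := by
  obtain ⟨E, hEc, hE⟩ := exists_dom_of_dGen hκ hκc
  refine lt_of_lt_of_le ?_ hEc
  by_contra hcon
  rw [not_lt] at hcon
  have : NoMaxOrder κ.ord.ToType := Cardinal.noMaxOrder hκ.aleph0_le
  have h1 : #E ≤ #(continuum.ord.ToType) := by simpa using hcon
  obtain ⟨e⟩ := Cardinal.le_def _ _ |>.1 h1
  choose nx hnx using fun a : κ.ord.ToType => exists_gt a
  classical
  have hne : Nonempty κ.ord.ToType := by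
    rw [← Cardinal.mk_ne_zero_iff, Cardinal.mk_ord_toType]
    exact hκ.ne_zero
  obtain ⟨g, hg, hle⟩ := hE (fun w => if h : ∃ g : E, e g = w then nx (h.choose.1 w)
    else Classical.choice hne)
  have h2 := hle (e ⟨g, hg⟩)
  have hex : ∃ g' : E, e g' = e ⟨g, hg⟩ := ⟨_, rfl⟩
  rw [dif_pos hex] at h2
  have h3 : hex.choose = ⟨g, hg⟩ := e.injective hex.choose_spec
  rw [h3] at h2
  exact absurd h2 (not_le.2 (hnx _))

theorem dGen_le_two_power (hκ0 : 0 < κ) (hκc : κ ≤ 𝔠) : dGen 𝔠 κ ≤ 2 ^ 𝔠 := by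
  have hmem : #(Set.univ : Set (continuum.ord.ToType → κ.ord.ToType)) ∈
      {μ | ∃ D : Set (continuum.ord.ToType → κ.ord.ToType), #D = μ ∧
        ∀ f : continuum.ord.ToType → κ.ord.ToType, ∃ g ∈ D, #{α | f α > g α} < κ} := by
    refine ⟨_, rfl, fun f => ⟨f, mem_univ _, ?_⟩⟩
    simpa using hκ0
  refine (csInf_le' hmem).trans ?_
  rw [Cardinal.mk_univ]
  simp only [Cardinal.mk_pi, Cardinal.mk_ord_toType, Cardinal.prod_const, Cardinal.lift_id]
  calc κ ^ 𝔠 ≤ 𝔠 ^ 𝔠 := Cardinal.power_le_power_right hκc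
    _ = 2 ^ 𝔠 := Cardinal.power_self_eq Cardinal.aleph0_le_continuum

/-- monotonicity, in the form of non-domination. -/
theorem notDom_of_lt_dGen {μ : Cardinal.{0}} (hμ : ℵ₀ ≤ μ) (hμκ : μ ≤ κ) (hκ : κ.IsRegular)
    (hκc : κ ≤ 𝔠) {θ : Cardinal.{0}} (hθ : θ < dGen 𝔠 κ) : NotDom μ.ord.ToType θ := by
  intro I hI g
  by_contra hcon
  push Not at hcon
  obtain ⟨idx⟩ := Cardinal.eq.1 (show #Baire = #(continuum.ord.ToType) by simp)
  have hE : ∀ f : continuum.ord.ToType → μ.ord.ToType,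
      ∃ i, ∀ w, f w ≤ (fun i w => g i (idx.symm w)) i w := by
    intro f
    obtain ⟨i, hi⟩ := hcon (fun x => f (idx x))
    refine ⟨i, fun w => ?_⟩
    have := hi (idx.symm w)
    simpa using this
  obtain ⟨D, hD⟩ := exists_dom' (κ := μ) (W := continuum.ord.ToType) (X := Baire)
    (T := κ.ord.ToType) (Y := κ.ord.ToType) hμ (by simpa using Cardinal.aleph0_le_continuum)
    (fun a b => a ≤ b) (by simpa using hκc) (by simp) (fun A hA => by
      by_contra hcon2
      push Not at hcon2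
      have hcof : IsCofinal A := fun b => by
        obtain ⟨s, hs, hbs⟩ := hcon2 b
        exact ⟨s, hs, hbs.le⟩
      have h1 := Order.cof_le hcof
      rw [Ordinal.cof_toType, hκ.cof_ord] at h1
      exact absurd (hA.trans_le hμκ) (not_lt.2 h1)) (fun i w => g i (idx.symm w)) hE
  have := dGen_le_of_dom hκ.pos D hD
  exact absurd (this.trans hI) (not_le.2 hθ)

end dom

section induction

/-- the initial segment map. -/
noncomputable def segMap {a b : Ordinal.{0}} (h : a ≤ b) (x : a.ToType) : b.ToType :=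
  Ordinal.ToType.mk ⟨(Ordinal.ToType.mk.symm x).1,
    Set.mem_Iio.2 (lt_of_lt_of_le (Set.mem_Iio.1 (Ordinal.ToType.mk.symm x).2) h)⟩

theorem mem_range_segMap {a b : Ordinal.{0}} (h : a ≤ b) (y : b.ToType)
    (hy : (Ordinal.ToType.mk.symm y).1 < a) : y ∈ range (segMap h) := by
  refine ⟨Ordinal.ToType.mk ⟨(Ordinal.ToType.mk.symm y).1, hy⟩, ?_⟩
  unfold segMap
  simp

theorem good_aleph {θ : Cardinal.{0}} (hθ1 : 𝔠 ≤ θ) (hθ2 : θ < 2 ^ 𝔠) (α : Ordinal.{0})
    (hα : α < Ordinal.omega 1)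
    (hN : ∀ β, β + 1 ≤ α → NotDom (ℵ_ (β + 1)).ord.ToType θ) :
    Good (ℵ_ α).ord.ToType θ := by
  classical
  induction α using Ordinal.limitRecOn with
  | zero =>
    have h1 : #ℕ = #((ℵ_ 0).ord.ToType) := by simp
    obtain ⟨e⟩ := Cardinal.eq.1 h1
    exact (base_good θ hθ2).surj e e.surjective
  | add_one β ih =>
    have hβ : β < Ordinal.omega 1 := lt_of_lt_of_le (lt_add_one β) hα.le
    have ih' := ih hβ (fun γ hγ => hN γ (hγ.trans (le_add_of_nonneg_right zero_le)))
    have hreg : (ℵ_ (β + 1)).IsRegular := Cardinal.isRegular_aleph_add_one β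
    have hbd : ∀ s : ℕ → (ℵ_ (β + 1)).ord.ToType, ∃ b, ∀ n, s n ≤ b := by
      intro s
      by_contra hcon
      push Not at hcon
      have hcof : IsCofinal (range s) := fun b => by
        obtain ⟨n, hn⟩ := hcon b
        exact ⟨s n, ⟨n, rfl⟩, hn.le⟩
      have h1 := Order.cof_le hcof
      rw [Ordinal.cof_toType, hreg.cof_ord] at h1
      have h2 : #(range s) ≤ ℵ₀ := Cardinal.mk_range_le.trans (by simp)
      have h3 : ℵ₀ < ℵ_ (β + 1) := by
        rw [← Cardinal.succ_aleph]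
        exact lt_of_le_of_lt (Cardinal.aleph0_le_aleph β) (Order.lt_succ _)
      exact absurd (h1.trans h2) (not_le.2 h3)
    have hinj : ∀ w : (ℵ_ (β + 1)).ord.ToType,
        ∃ e : (ℵ_ (β + 1)).ord.ToType → (ℵ_ β).ord.ToType, InjOn e (Iio w) := by
      intro w
      have h1 : #(Iio w) ≤ #((ℵ_ β).ord.ToType) := by
        have h2 := Cardinal.mk_Iio_lt w (by simp)
        simp only [Cardinal.mk_ord_toType] at h2 ⊢
        have h3 : #(Iio w) < Order.succ (ℵ_ β) := by
          rw [Cardinal.succ_aleph]; exact h2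
        exact Order.lt_succ_iff.1 h3
      obtain ⟨e⟩ := Cardinal.le_def _ _ |>.1 h1
      have hne : Nonempty (ℵ_ β).ord.ToType := by
        rw [← Cardinal.mk_ne_zero_iff, Cardinal.mk_ord_toType]
        exact (Cardinal.aleph_pos β).ne'
      refine ⟨fun x => if h : x ∈ Iio w then e ⟨x, h⟩ else Classical.choice hne, ?_⟩
      intro x hx y hy hxy
      simp only [dif_pos hx, dif_pos hy] at hxy
      have := e.injective hxy
      simpa using this
    choose e he using hinj
    exact succ_good hbd e he hθ1 (hN β le_rfl) ih'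
  | limit α hlim ih =>
    have hpos : 0 < α := by
      rcases eq_or_ne α 0 with h | h
      · subst h; exact absurd hlim (by simp)
      · exact pos_iff_ne_zero.2 h
    -- index by a small countable type
    have hcount' : Countable α.ToType := by
      have : #α.ToType ≤ ℵ₀ := by
        rw [Cardinal.mk_toType]
        have h2 : α < (ℵ_ 1).ord := by rwa [Cardinal.ord_aleph]
        rw [Cardinal.lt_ord] at h2
        rw [← Cardinal.succ_aleph0] at h2
        exact Order.lt_succ_iff.1 h2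
      exact Cardinal.mk_le_aleph0_iff.1 this
    have hne' : Nonempty α.ToType := Ordinal.nonempty_toType_iff.2 hpos.ne'
    have hneK : Nonempty (ℵ_ α).ord.ToType := by
      rw [← Cardinal.mk_ne_zero_iff, Cardinal.mk_ord_toType]
      exact (Cardinal.aleph_pos α).ne'
    have hlt : ∀ n : α.ToType, (Ordinal.ToType.mk.symm n).1 < α :=
      fun n => (Ordinal.ToType.mk.symm n).2
    refine limit_good (N := α.ToType)
      (fun n => (ℵ_ (Ordinal.ToType.mk.symm n).1).ord.ToType)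
      (fun n => segMap (Cardinal.ord_le_ord.2 (Cardinal.aleph_le_aleph.2 (hlt n).le)))
      ?_ hθ1 (base_good θ hθ2) ?_
    · intro k
      have h1 : (Ordinal.ToType.mk.symm k).1 < (ℵ_ α).ord := (Ordinal.ToType.mk.symm k).2
      rw [Cardinal.lt_ord] at h1
      have h2 : (Ordinal.ToType.mk.symm k).1.card < ⨆ a : Iio α, ℵ_ a := by
        rw [← Cardinal.aleph_limit hlim]
        exact h1
      obtain ⟨a, ha⟩ := exists_lt_of_lt_ciSup' h2
      refine ⟨Ordinal.ToType.mk a, mem_range_segMap _ _ ?_⟩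
      rw [Cardinal.lt_ord]
      simpa using ha
    · intro n
      exact ih _ (hlt n) ((hlt n).trans hα) (fun γ hγ => hN γ (hγ.trans (hlt n).le))

end induction

section ne

theorem neStar_iff {x y : Baire} : neStar x y ↔ ∃ N, ∀ n ≥ N, x n ≠ y n := by
  unfold neStar
  constructor
  · intro h
    obtain ⟨N, hN⟩ := h.bddAbove
    refine ⟨N + 1, fun n hn => ?_⟩
    intro hc
    have := hN (show n ∈ {n | ¬ x n ≠ y n} from not_not.2 hc)
    omega
  · rintro ⟨N, hN⟩
    refine (Set.finite_lt_nat N).subset fun n hn => ?_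
    by_contra hc
    simp only [Set.mem_ofPred_eq, not_lt] at hc
    exact hn (hN n hc)

theorem neStar_unb : ¬ ∃ y : Baire, ∀ x, neStar x y := by
  rintro ⟨y, hy⟩
  obtain ⟨N, hN⟩ := neStar_iff.1 (hy y)
  exact hN N le_rfl rfl

theorem neStar_countable (A : ℕ → Baire) : ∃ y, ∀ n, neStar (A n) y := by
  refine ⟨fun n => (Finset.range (n + 1)).sup (fun k => A k n) + 1, fun k => ?_⟩
  rw [neStar_iff]
  refine ⟨k, fun n hn => ?_⟩
  have : A k n ≤ (Finset.range (n + 1)).sup (fun k => A k n) :=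
    Finset.le_sup (f := fun k => A k n) (Finset.mem_range.2 (by omega))
  omega

theorem neStar_fin (A : Set Baire) (hA : A.Finite) : ∃ y, ∀ x ∈ A, neStar x y := by
  rcases A.eq_empty_or_nonempty with rfl | hne
  · exact ⟨fun _ => 0, fun x hx => absurd hx (Set.notMem_empty x)⟩
  · obtain ⟨s, hs⟩ := hA.countable.exists_eq_range hne
    obtain ⟨y, hy⟩ := neStar_countable s
    refine ⟨y, fun x hx => ?_⟩
    rw [hs] at hx
    obtain ⟨n, rfl⟩ := hx
    exact hy n

/-- spreading a sequence of codes. -/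
def spread (f : Baire) (m : ℕ) : ℕ := unpack (f m.unpair.1) m.unpair.2

/-- `𝔟(≠*)` is not the supremum of countably many smaller cardinals. -/
theorem neStar_countable_union (S : Set Baire) (hS : #S = bnum neStar)
    (P : ℕ → Set Baire) (hP : ∀ n, #(P n) < bnum neStar) (hcov : S ⊆ ⋃ n, P n) :
    ∃ y, ∀ x ∈ S, neStar x y := by
  classical
  have h0 : ∀ n, ∃ y, ∀ x ∈ P n, neStar (spread x) y := by
    intro n
    obtain ⟨y, hy⟩ := bounded_of_lt_bnum neStar (spread '' P n)
      (lt_of_le_of_lt Cardinal.mk_image_le (hP n))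
    exact ⟨y, fun x hx => hy _ ⟨x, hx, rfl⟩⟩
  choose y hy using h0
  refine ⟨fun k => Encodable.encode (List.ofFn (fun j : Fin (k + 1) => y j (Nat.pair k j))),
    fun x hx => ?_⟩
  obtain ⟨j, hj⟩ := Set.mem_iUnion.1 (hcov hx)
  obtain ⟨N, hN⟩ := neStar_iff.1 (hy j x hj)
  rw [neStar_iff]
  refine ⟨max N j, fun k hk => ?_⟩
  intro heq
  have hkN : N ≤ k := le_of_max_le_left hk
  have hkj : j ≤ k := le_of_max_le_right hk
  have h1 : N ≤ Nat.pair k j := hkN.trans (Nat.left_le_pair k j)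
  apply hN _ h1
  unfold spread
  rw [Nat.unpair_pair]
  simp only
  rw [heq]
  have h2 : ∀ (m : ℕ) (F : Fin m → ℕ) (j : ℕ) (hj : j < m),
      unpack (Encodable.encode (List.ofFn F)) j = F ⟨j, hj⟩ := by
    intro m F j hj
    simp [unpack, List.getD_eq_getElem?_getD, hj]
  exact h2 (k + 1) _ j (by omega)

theorem neStar_succ {α : Ordinal.{0}} (hα : α < Ordinal.omega 1) (h : bnum neStar = ℵ_ α) :
    ∃ β, α = β + 1 := by
  classical
  by_contra hcon
  push Not at hcon
  -- `ℵ_α` is a countable union of smaller sets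
  obtain ⟨A, hA, hun⟩ := exists_unbounded neStar neStar_unb
  apply hun
  have hcov : ∃ P : ℕ → Set Baire, (∀ n, #(P n) < bnum neStar) ∧ A ⊆ ⋃ n, P n := by
    rcases Ordinal.zero_or_succ_or_isSuccLimit α with h0 | ⟨β, hβ⟩ | hlim
    · subst h0
      have hA' : #A = ℵ₀ := by rw [hA, h]; simp
      have hcnt : A.Countable := Cardinal.le_aleph0_iff_set_countable.1 hA'.le
      have hne : A.Nonempty := by
        rw [Set.nonempty_iff_ne_empty]
        rintro rfl
        simp at hA'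
        exact Cardinal.aleph0_ne_zero hA'.symm
      obtain ⟨s, hs⟩ := hcnt.exists_eq_range hne
      refine ⟨fun n => {s n}, fun n => ?_, ?_⟩
      · rw [h]; simp
      · rw [hs]
        rintro _ ⟨n, rfl⟩
        exact Set.mem_iUnion.2 ⟨n, rfl⟩
    · exact absurd hβ.symm (by simpa using hcon β)
    · have hcount' : Countable α.ToType := by
        have : #α.ToType ≤ ℵ₀ := by
          rw [Cardinal.mk_toType]
          have h2 : α < (ℵ_ 1).ord := by rwa [Cardinal.ord_aleph]
          rw [Cardinal.lt_ord] at h2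
          rw [← Cardinal.succ_aleph0] at h2
          exact Order.lt_succ_iff.1 h2
        exact Cardinal.mk_le_aleph0_iff.1 this
      have hpos : α ≠ 0 := by
        rintro rfl
        exact absurd hlim (by simp)
      have hne' : Nonempty α.ToType := Ordinal.nonempty_toType_iff.2 hpos
      obtain ⟨s, hs⟩ := exists_surjective_nat α.ToType
      obtain ⟨e⟩ := Cardinal.eq.1 (show #A = #((ℵ_ α).ord.ToType) by rw [hA, h]; simp)
      have hlt : ∀ n : α.ToType, (Ordinal.ToType.mk.symm n).1 < α :=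
        fun n => (Ordinal.ToType.mk.symm n).2
      refine ⟨fun n => (fun x => (e.symm x : Baire)) '' range (segMap (Cardinal.ord_le_ord.2
        (Cardinal.aleph_le_aleph.2 (hlt (s n)).le))), fun n => ?_, ?_⟩
      · refine lt_of_le_of_lt (Cardinal.mk_image_le.trans Cardinal.mk_range_le) ?_
        rw [h, Cardinal.mk_ord_toType]
        exact Cardinal.aleph_lt_aleph.2 (hlt (s n))
      · intro x hx
        have h1 : (Ordinal.ToType.mk.symm (e ⟨x, hx⟩)).1 < (ℵ_ α).ord :=
          (Ordinal.ToType.mk.symm (e ⟨x, hx⟩)).2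
        rw [Cardinal.lt_ord] at h1
        have h2 : (Ordinal.ToType.mk.symm (e ⟨x, hx⟩)).1.card < ⨆ a : Iio α, ℵ_ a := by
          rw [← Cardinal.aleph_limit hlim]
          exact h1
        obtain ⟨a, ha⟩ := exists_lt_of_lt_ciSup' h2
        obtain ⟨n, hn⟩ := hs (Ordinal.ToType.mk a)
        refine Set.mem_iUnion.2 ⟨n, ⟨e ⟨x, hx⟩, mem_range_segMap _ _ ?_, by simp⟩⟩
        rw [Cardinal.lt_ord, hn]
        simpa using ha
  obtain ⟨P, hP1, hP2⟩ := hcov
  exact neStar_countable_union A hA P hP1 hP2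

theorem neStar_main (h : bnum neStar < ℵ_ (Ordinal.omega 1)) :
    (bnum neStar).IsRegular ∧ bnum neStar ≤ 𝔠 ∧
      dnum neStar {∅} = dGen 𝔠 (bnum neStar) := by
  classical
  have h0 := aleph0_le_bnum neStar neStar_unb neStar_fin
  have hc := bnum_le_continuum neStar neStar_unb
  obtain ⟨α, hα⟩ := Cardinal.mem_range_aleph_iff.2 h0
  have hα1 : α < Ordinal.omega 1 := by
    rw [← hα] at h
    exact Cardinal.aleph_lt_aleph.1 h
  obtain ⟨β, rfl⟩ := neStar_succ hα1 hα.symm
  have hreg : (bnum neStar).IsRegular := by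
    rw [← hα]; exact Cardinal.isRegular_aleph_add_one β
  refine ⟨hreg, hc, le_antisymm ?_ ?_⟩
  · exact dnum_le_dGen neStar hreg hc (bounded_of_lt_bnum neStar)
  · by_contra hlt
    rw [not_le] at hlt
    -- a small family
    have hne : {κ | ∃ D : Set (Baire → Baire), #D = κ ∧
        ∀ f : Baire → Baire, ∃ g ∈ D, relMod neStar {∅} f g}.Nonempty := by
      refine ⟨_, Set.univ, rfl, fun f => ?_⟩
      choose r hr using fun x : Baire => neStar_fin {x} (Set.finite_singleton x)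
      refine ⟨fun t => r (f t), mem_univ _, ?_⟩
      simp only [relMod, mem_singleton_iff]
      ext t
      simpa using hr (f t) (f t) rfl
    obtain ⟨D, hDc, hD⟩ := csInf_mem hne
    set θ : Cardinal.{0} := max #D 𝔠 with hθ
    have hθ1 : 𝔠 ≤ θ := le_max_right _ _
    have hθ3 : θ < dGen 𝔠 (bnum neStar) := by
      refine max_lt ?_ (continuum_lt_dGen hreg hc)
      rw [hDc]; exact hlt
    have hθ2 : θ < 2 ^ 𝔠 := hθ3.trans_le (dGen_le_two_power hreg.pos hc)
    have hgood := good_aleph hθ1 hθ2 (β + 1) hα1 (fun γ hγ => by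
      refine notDom_of_lt_dGen (Cardinal.aleph0_le_aleph _) ?_ hreg hc hθ3
      rw [← hα]
      exact Cardinal.aleph_le_aleph.2 hγ)
    obtain ⟨X, l, hX, hl1, hl2, hG⟩ := hgood
    -- an unbounded sequence
    obtain ⟨A, hA, hun⟩ := exists_unbounded neStar neStar_unb
    obtain ⟨e⟩ := Cardinal.eq.1 (show #((ℵ_ (β + 1)).ord.ToType) = #A by rw [hA, ← hα]; simp)
    have hb : ∀ y : Baire, ∃ γ : (ℵ_ (β + 1)).ord.ToType, ¬ neStar (e γ : Baire) y := by
      intro y
      by_contra hcon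
      push Not at hcon
      refine hun ⟨y, fun x hx => ?_⟩
      have := hcon (e.symm ⟨x, hx⟩)
      simpa using this
    choose b hb using hb
    have hXB : #X ≤ #Baire := by rw [mk_baire]; exact hX
    obtain ⟨ι⟩ := Cardinal.le_def _ _ |>.1 hXB
    obtain ⟨f, hf⟩ := hG D (le_max_left _ _) (fun _ => Set.univ) (fun g x => b (g.1 (ι x)))
      (fun _ => by simpa using hl1)
    obtain ⟨g, hg, hrel⟩ := hD (fun t => if h : ∃ x, ι x = t then (e (f h.choose) : Baire)
      else fun _ => 0)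
    obtain ⟨x, _, hx⟩ := hf ⟨g, hg⟩
    simp only [relMod, mem_singleton_iff] at hrel
    have h1 : neStar (e (f x) : Baire) (g (ι x)) := by
      by_contra hcon
      have hex : ∃ x', ι x' = ι x := ⟨x, rfl⟩
      have hch : hex.choose = x := ι.injective hex.choose_spec
      have hmem : ι x ∈ ({x_1 | ¬neStar (if h : ∃ x, ι x = x_1 then (e (f h.choose) : Baire)
          else fun _ => 0) (g x_1)} : Set Baire) := by
        change ¬neStar (if h : ∃ x', ι x' = ι x then (e (f h.choose) : Baire)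
          else fun _ => 0) (g (ι x))
        rw [dif_pos hex, hch]
        exact hcon
      rw [hrel] at hmem
      exact hmem
    rw [hx] at h1
    exact hb _ h1

end ne

end Pool.Agent.Helper66.HD
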