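import Mathlib

/-!
Digit-product functions and a Radon-type lemma: prescribing line sums modulo 1.
-/

open Finset

namespace Pool.Agent.Helper66.ML

variable {r : ℕ}

/-- `d` is primitive: some coordinate is prime to `p`. -/
def Prim (p : ℕ) (d : Fin r → ℤ) : Prop := ∃ i, ¬ (p : ℤ) ∣ d i

/-- level-`k` line function. -/
structure IsLineFun (p k : ℕ) (g : (Fin r → ℤ) → (Fin r → ℤ) → ℤ) : Prop where
  congr : ∀ y y' d d', Prim p d → (∀ i, (p : ℤ) ^ k ∣ y i - y' i) →
    (∀ i, (p : ℤ) ^ k ∣ d i - d' i) → g y d = g y' d'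
  shift : ∀ y d (t : ℤ), Prim p d → g (y + t • d) d = g y d
  unit : ∀ y d (u : ℤ), Prim p d → ¬ (p : ℤ) ∣ u → g y (u • d) = g y d

section sums

variable {M : Type*} [AddCommMonoid M]

theorem sum_range_mul' (f : ℕ → M) (a b : ℕ) :
    ∑ t ∈ range (a * b), f t = ∑ t ∈ range a, ∑ s ∈ range b, f (t + a * s) := by
  induction b with
  | zero => simp
  | succ b ih =>
    rw [Nat.mul_succ, Finset.sum_range_add, ih]
    rw [← Finset.sum_add_distrib]
    refine Finset.sum_congr rfl fun t _ => ?_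
    rw [Finset.sum_range_succ, add_comm (a * b) t]

theorem sum_range_zmod (n : ℕ) [NeZero n] (F : ZMod n → M) :
    ∑ t ∈ range n, F (t : ZMod n) = ∑ z : ZMod n, F z := by
  refine Finset.sum_nbij' (fun t => (t : ZMod n)) (fun z => z.val) ?_ ?_ ?_ ?_ ?_
  · intro a _; simp
  · intro z _; simpa using ZMod.val_lt z
  · intro a ha; exact ZMod.val_cast_of_lt (by simpa using ha)
  · intro z _; simp
  · intro a _; rfl

omit [AddCommMonoid M] in
theorem periodic_mod {n : ℕ} (f : ℤ → M) (hf : ∀ t, f (t + n) = f t) (t z : ℤ) :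
    f (t + n * z) = f t := by
  induction z using Int.induction_on with
  | zero => simp
  | succ i ih =>
    rw [mul_add, mul_one, ← add_assoc, hf, ih]
  | pred i ih =>
    rw [← hf, ← ih]
    congr 1; ring

theorem sum_range_affine (n : ℕ) [NeZero n] (f : ℤ → M) (hf : ∀ t, f (t + n) = f t)
    (u s : ℤ) (hu : IsCoprime u (n : ℤ)) :
    ∑ t ∈ range n, f (u * t + s) = ∑ t ∈ range n, f t := by
  have key : ∀ a b : ℤ, (a : ZMod n) = b → f a = f b := by
    intro a b hab
    rw [ZMod.intCast_eq_intCast_iff_dvd_sub] at hab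
    obtain ⟨c, hc⟩ := hab
    have : b = a + n * c := by linarith
    rw [this, periodic_mod f hf]
  set F : ZMod n → M := fun z => f (z.val : ℤ) with hF
  have hFf : ∀ a : ℤ, f a = F (a : ZMod n) := by
    intro a
    simp only [hF]
    apply key
    simp
  have hunit : IsUnit (u : ZMod n) := by
    obtain ⟨a, b, hab⟩ := hu
    refine IsUnit.of_mul_eq_one (a : ZMod n) ?_
    have := congrArg (fun z : ℤ => (z : ZMod n)) hab
    simpa [mul_comm] using this
  obtain ⟨v, hv⟩ := hunit
  calc ∑ t ∈ range n, f (u * t + s) = ∑ t ∈ range n, F ((u : ZMod n) * (t : ZMod n) + s) := by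
        refine Finset.sum_congr rfl fun t _ => ?_
        rw [hFf]; congr 1; push_cast; ring
    _ = ∑ z : ZMod n, F ((u : ZMod n) * z + s) :=
        sum_range_zmod n (fun z => F ((u : ZMod n) * z + s))
    _ = ∑ z : ZMod n, F z := by
        rw [← hv]
        exact ((Units.mulLeft v).trans (Equiv.addRight (s : ZMod n))).sum_comp F
    _ = ∑ t ∈ range n, F (t : ZMod n) := (sum_range_zmod n F).symm
    _ = ∑ t ∈ range n, f t := by
        refine Finset.sum_congr rfl fun t _ => ?_
        rw [hFf]; simp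

end sums

section digits

variable {p : ℕ}

open Classical in
/-- `1` if digit `c` of `a` is zero, otherwise `0`. -/
noncomputable def eps (p c : ℕ) (a : ℤ) : ZMod p := if (p : ℤ) ∣ a / (p : ℤ) ^ c then 1 else 0

open Classical in
theorem sum_indicator [Fact p.Prime] (A e : ℤ) :
    ∑ s ∈ range p, (if (p : ℤ) ∣ A + s * e then (1 : ZMod p) else 0)
      = if (p : ℤ) ∣ e then 0 else 1 := by
  split_ifs with he
  · have : ∀ s ∈ range p, (if (p : ℤ) ∣ A + s * e then (1 : ZMod p) else 0)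
        = if (p : ℤ) ∣ A then 1 else 0 := by
      intro s _
      have h1 : (p : ℤ) ∣ A + s * e ↔ (p : ℤ) ∣ A :=
        (Int.dvd_add_left (Dvd.dvd.mul_left he _))
      simp only [h1]
    rw [Finset.sum_congr rfl this]
    simp
  · have he' : (e : ZMod p) ≠ 0 := by
      rwa [Ne, ZMod.intCast_zmod_eq_zero_iff_dvd]
    have h1 : ∀ s : ℕ, ((p : ℤ) ∣ A + s * e) ↔ (A : ZMod p) + s * e = 0 := by
      intro s
      rw [← ZMod.intCast_zmod_eq_zero_iff_dvd]
      push_cast
      rfl
    simp only [h1]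
    rw [sum_range_zmod p (fun z => if (A : ZMod p) + z * e = 0 then (1 : ZMod p) else 0)]
    rw [Finset.sum_eq_single (-(A : ZMod p) / e)]
    · rw [if_pos]
      field_simp
      ring
    · intro b _ hb
      rw [if_neg]
      intro h
      apply hb
      field_simp
      linear_combination h
    · simp

theorem eps_add [Fact p.Prime] (q : ℕ) (a b : ℤ) :
    eps p q (a + (p : ℤ) ^ (q + 1) * b) = eps p q a := by
  unfold eps
  have hp : ((p : ℤ) ^ q) ≠ 0 := pow_ne_zero _ (by exact_mod_cast (Fact.out : p.Prime).ne_zero)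
  have : (a + (p : ℤ) ^ (q + 1) * b) / (p : ℤ) ^ q = a / (p : ℤ) ^ q + p * b := by
    rw [show a + (p : ℤ) ^ (q + 1) * b = a + (p : ℤ) ^ q * (p * b) by ring]
    rw [Int.add_mul_ediv_left _ _ hp]
  rw [this]
  have h1 : ((p : ℤ) ∣ a / (p : ℤ) ^ q + p * b) ↔ (p : ℤ) ∣ a / (p : ℤ) ^ q :=
    Int.dvd_add_left (Dvd.intro _ rfl)
  simp only [h1]

open Classical in
theorem sum_eps [Fact p.Prime] (q : ℕ) (a e : ℤ) :
    ∑ s ∈ range p, eps p q (a + (s * (p : ℤ) ^ q) * e) = if (p : ℤ) ∣ e then 0 else 1 := by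
  rw [← sum_indicator (a / (p : ℤ) ^ q) e]
  refine Finset.sum_congr rfl fun s _ => ?_
  unfold eps
  have hp : ((p : ℤ) ^ q) ≠ 0 := pow_ne_zero _ (by exact_mod_cast (Fact.out : p.Prime).ne_zero)
  have : (a + (s * (p : ℤ) ^ q) * e) / (p : ℤ) ^ q = a / (p : ℤ) ^ q + s * e := by
    rw [show a + (s * (p : ℤ) ^ q) * e = a + (p : ℤ) ^ q * (s * e) by ring]
    rw [Int.add_mul_ediv_left _ _ hp]
  rw [this]

end digits

section L1

variable {p : ℕ}

open Classical in
/-- the factor with digit index `c`. -/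
noncomputable def phi (p m : ℕ) (i : Fin r) (c : ℕ) (x : Fin r → ℤ) : ZMod p :=
  eps p c (x i) - if h : c < r ∧ c ≠ i then eps p (c + m) (x ⟨c, h.1⟩) else 0

/-- partial digit product. -/
noncomputable def PP (p m : ℕ) (i : Fin r) (q : ℕ) (x : Fin r → ℤ) : ZMod p :=
  ∏ c ∈ range q, phi p m i c x

open Classical in
/-- the line sum of the factor with index `c` in direction `d`. -/
noncomputable def fac (p m : ℕ) (i : Fin r) (c : ℕ) (d : Fin r → ℤ) : ZMod p :=
  (if (p : ℤ) ∣ d i then 0 else 1) -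
    if h : c < r ∧ c ≠ i then (if (p : ℤ) ^ (m + 1) ∣ d ⟨c, h.1⟩ then 0 else 1) else 0

theorem phi_add [Fact p.Prime] (m : ℕ) (i : Fin r) (c q : ℕ) (hcq : c < q) (x d : Fin r → ℤ)
    (hd : ∀ j ≠ i, (p : ℤ) ^ m ∣ d j) (s : ℤ) :
    phi p m i c (x + (s * (p : ℤ) ^ q) • d) = phi p m i c x := by
  obtain ⟨q', rfl⟩ : ∃ q', q = c + 1 + q' := ⟨q - (c + 1), by omega⟩
  unfold phi
  congr 1
  · simp only [Pi.add_apply, Pi.smul_apply, smul_eq_mul]
    rw [show x i + s * (p : ℤ) ^ (c + 1 + q') * d i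
      = x i + (p : ℤ) ^ (c + 1) * (s * (p : ℤ) ^ q' * d i) by ring]
    exact eps_add _ _ _
  · split_ifs with h
    · obtain ⟨e, he⟩ := hd ⟨c, h.1⟩ (fun hh => h.2 (by rw [← hh]))
      simp only [Pi.add_apply, Pi.smul_apply, smul_eq_mul, he]
      rw [show x ⟨c, h.1⟩ + s * (p : ℤ) ^ (c + 1 + q') * ((p : ℤ) ^ m * e)
        = x ⟨c, h.1⟩ + (p : ℤ) ^ (c + m + 1) * (s * (p : ℤ) ^ q' * e) by ring]
      exact eps_add _ _ _
    · rfl

theorem sum_phi [Fact p.Prime] (m : ℕ) (i : Fin r) (q : ℕ) (x d : Fin r → ℤ)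
    (hd : ∀ j ≠ i, (p : ℤ) ^ m ∣ d j) :
    ∑ s ∈ range p, phi p m i q (x + ((s : ℤ) * (p : ℤ) ^ q) • d) = fac p m i q d := by
  unfold phi fac
  rw [Finset.sum_sub_distrib]
  congr 1
  · simp only [Pi.add_apply, Pi.smul_apply, smul_eq_mul]
    exact sum_eps q (x i) (d i)
  · split_ifs with h h'
    · obtain ⟨e, he⟩ := hd ⟨q, h.1⟩ (fun hh => h.2 (by rw [← hh]))
      simp only [Pi.add_apply, Pi.smul_apply, smul_eq_mul, he]
      have := sum_eps (p := p) (q + m) (x ⟨q, h.1⟩) e
      have he' : (p : ℤ) ∣ e := by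
        rw [he, pow_succ] at h'
        have hp : ((p : ℤ) ^ m) ≠ 0 :=
          pow_ne_zero _ (by exact_mod_cast (Fact.out : p.Prime).ne_zero)
        exact (mul_dvd_mul_iff_left hp).1 h'
      rw [if_pos he'] at this
      rw [← this]
      refine Finset.sum_congr rfl fun s _ => ?_
      congr 1; ring
    · obtain ⟨e, he⟩ := hd ⟨q, h.1⟩ (fun hh => h.2 (by rw [← hh]))
      simp only [Pi.add_apply, Pi.smul_apply, smul_eq_mul, he]
      have := sum_eps (p := p) (q + m) (x ⟨q, h.1⟩) e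
      have he' : ¬ (p : ℤ) ∣ e := by
        intro hh
        apply h'
        rw [he, pow_succ]
        exact mul_dvd_mul_left _ hh
      rw [if_neg he'] at this
      rw [← this]
      refine Finset.sum_congr rfl fun s _ => ?_
      congr 1; ring
    · simp

theorem sum_PP [Fact p.Prime] (m : ℕ) (i : Fin r) (q : ℕ) (y d : Fin r → ℤ)
    (hd : ∀ j ≠ i, (p : ℤ) ^ m ∣ d j) :
    ∑ t ∈ range (p ^ q), PP p m i q (y + (t : ℤ) • d) = ∏ c ∈ range q, fac p m i c d := by
  induction q with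
  | zero => simp [PP]
  | succ q ih =>
    rw [pow_succ, sum_range_mul', Finset.prod_range_succ, ← ih, Finset.sum_mul]
    refine Finset.sum_congr rfl fun t _ => ?_
    rw [← sum_phi m i q (y + (t : ℤ) • d) d hd, Finset.mul_sum]
    refine Finset.sum_congr rfl fun s _ => ?_
    have hx : y + ((t + p ^ q * s : ℕ) : ℤ) • d
        = (y + (t : ℤ) • d) + ((s : ℤ) * (p : ℤ) ^ q) • d := by
      push_cast
      rw [add_smul, add_assoc, mul_comm ((p : ℤ) ^ q)]
    rw [hx]
    unfold PP
    rw [Finset.prod_range_succ]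
    congr 1
    refine Finset.prod_congr rfl fun c hc => ?_
    exact phi_add m i c q (Finset.mem_range.1 hc) _ d hd s

open Classical in
theorem prod_fac [Fact p.Prime] (m : ℕ) (i : Fin r) (d : Fin r → ℤ) (hprim : Prim p d)
    (hd : ∀ j ≠ i, (p : ℤ) ^ m ∣ d j) :
    ∏ c ∈ range (r + m), fac p m i c d = if ∀ j ≠ i, (p : ℤ) ^ (m + 1) ∣ d j then 1 else 0 := by
  by_cases hi : (p : ℤ) ∣ d i
  · have h0 : fac p m i i d = 0 := by
      unfold fac
      simp [hi]
    rw [Finset.prod_eq_zero (i := (i : ℕ)) (Finset.mem_range.2 (by omega)) h0]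
    rw [if_neg]
    intro h
    obtain ⟨j, hj⟩ := hprim
    rcases eq_or_ne j i with rfl | hji
    · exact hj hi
    · exact hj (dvd_trans (dvd_pow_self _ (by omega)) (h j hji))
  · split_ifs with h
    · refine Finset.prod_eq_one fun c _ => ?_
      unfold fac
      rw [if_neg hi]
      split_ifs with h1 h2
      · simp
      · exact absurd (h _ (fun hh => h1.2 (by rw [← hh]))) h2
      · simp
    · push Not at h
      obtain ⟨j, hji, hj⟩ := h
      refine Finset.prod_eq_zero (i := (j : ℕ)) (Finset.mem_range.2 (by omega)) ?_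
      unfold fac
      rw [if_neg hi, dif_pos ⟨j.2, fun hh => hji (Fin.ext hh)⟩]
      simp [hj]

theorem PP_add [Fact p.Prime] (m : ℕ) (i : Fin r) (x z : Fin r → ℤ) :
    PP p m i (r + m) (x + ((p : ℤ) ^ (r + m)) • z) = PP p m i (r + m) x := by
  unfold PP
  refine Finset.prod_congr rfl fun c hc => ?_
  rw [Finset.mem_range] at hc
  unfold phi
  congr 1
  · obtain ⟨q', hq⟩ : ∃ q', r + m = c + 1 + q' := ⟨r + m - (c + 1), by omega⟩
    simp only [Pi.add_apply, Pi.smul_apply, smul_eq_mul, hq]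
    rw [show (p : ℤ) ^ (c + 1 + q') * z i = (p : ℤ) ^ (c + 1) * ((p : ℤ) ^ q' * z i) by ring]
    exact eps_add _ _ _
  · split_ifs with h
    · obtain ⟨q', hq⟩ : ∃ q', r + m = c + m + 1 + q' := ⟨r - (c + 1), by omega⟩
      simp only [Pi.add_apply, Pi.smul_apply, smul_eq_mul, hq]
      rw [show (p : ℤ) ^ (c + m + 1 + q') * z ⟨c, h.1⟩
        = (p : ℤ) ^ (c + m + 1) * ((p : ℤ) ^ q' * z ⟨c, h.1⟩) by ring]
      exact eps_add _ _ _
    · rfl

open Classical in
theorem L1 [Fact p.Prime] (m : ℕ) (i : Fin r) (y d : Fin r → ℤ) (hprim : Prim p d)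
    (hd : ∀ j ≠ i, (p : ℤ) ^ m ∣ d j) :
    ∑ t ∈ range (p ^ (r + m)), PP p m i (r + m) (y + (t : ℤ) • d)
      = if ∀ j ≠ i, (p : ℤ) ^ (m + 1) ∣ d j then 1 else 0 := by
  rw [sum_PP m i (r + m) y d hd, prod_fac m i d hprim hd]

end L1

section L2

variable {p : ℕ}

/-- the levels. -/
def kap (r : ℕ) : ℕ → ℕ
  | 0 => 0
  | m + 1 => r + m + kap r m

/-- the products `H_m`. -/
noncomputable def HH (p : ℕ) (i : Fin r) : ℕ → (Fin r → ℤ) → ZMod p
  | 0, _ => 1
  | m + 1, x => PP p m i (r + m) x * HH p i m (fun j => x j / (p : ℤ) ^ (r + m))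

theorem HH_add [Fact p.Prime] (i : Fin r) (m : ℕ) (x z : Fin r → ℤ) :
    HH p i m (x + ((p : ℤ) ^ (kap r m)) • z) = HH p i m x := by
  induction m generalizing x z with
  | zero => simp [HH]
  | succ m ih =>
    unfold HH
    have hp : ((p : ℤ) ^ (r + m)) ≠ 0 :=
      pow_ne_zero _ (by exact_mod_cast (Fact.out : p.Prime).ne_zero)
    congr 1
    · have : x + ((p : ℤ) ^ (kap r (m + 1))) • z
          = x + ((p : ℤ) ^ (r + m)) • (((p : ℤ) ^ (kap r m)) • z) := by
        rw [smul_smul, ← pow_add]; rfl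
      rw [this]
      exact PP_add m i x _
    · have : (fun j => (x + ((p : ℤ) ^ (kap r (m + 1))) • z) j / (p : ℤ) ^ (r + m))
          = (fun j => x j / (p : ℤ) ^ (r + m)) + ((p : ℤ) ^ (kap r m)) • z := by
        funext j
        simp only [Pi.add_apply, Pi.smul_apply, smul_eq_mul]
        rw [show (p : ℤ) ^ (kap r (m + 1)) * z j
          = (p : ℤ) ^ (r + m) * ((p : ℤ) ^ (kap r m) * z j) by
            rw [← mul_assoc, ← pow_add]; rfl]
        rw [Int.add_mul_ediv_left _ _ hp]
      rw [this]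
      exact ih _ _

open Classical in
theorem L2 [Fact p.Prime] (i : Fin r) (m : ℕ) (y d : Fin r → ℤ) (hprim : Prim p d) :
    ∑ t ∈ range (p ^ (kap r m)), HH p i m (y + (t : ℤ) • d)
      = if ∀ j ≠ i, (p : ℤ) ^ m ∣ d j then 1 else 0 := by
  induction m generalizing y with
  | zero => simp [kap, HH]
  | succ m ih =>
    have hp : ((p : ℤ) ^ (r + m)) ≠ 0 :=
      pow_ne_zero _ (by exact_mod_cast (Fact.out : p.Prime).ne_zero)
    have hk : p ^ (kap r (m + 1)) = p ^ (r + m) * p ^ (kap r m) := by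
      rw [← pow_add]; rfl
    rw [hk, sum_range_mul']
    have hstep : ∀ t ∈ range (p ^ (r + m)), ∑ s ∈ range (p ^ (kap r m)),
        HH p i (m + 1) (y + ((t + p ^ (r + m) * s : ℕ) : ℤ) • d)
        = PP p m i (r + m) (y + (t : ℤ) • d) *
          (if ∀ j ≠ i, (p : ℤ) ^ m ∣ d j then 1 else 0) := by
      intro t _
      rw [← ih (fun j => (y + (t : ℤ) • d) j / (p : ℤ) ^ (r + m)), Finset.mul_sum]
      refine Finset.sum_congr rfl fun s _ => ?_
      have hx : y + ((t + p ^ (r + m) * s : ℕ) : ℤ) • d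
          = (y + (t : ℤ) • d) + ((p : ℤ) ^ (r + m)) • ((s : ℤ) • d) := by
        push_cast
        rw [add_smul, add_assoc, smul_smul]
      rw [hx]
      conv_lhs => unfold HH
      rw [PP_add]
      congr 2
      funext j
      simp only [Pi.add_apply, Pi.smul_apply, smul_eq_mul]
      rw [Int.add_mul_ediv_left _ _ hp]
    rw [Finset.sum_congr rfl hstep, ← Finset.sum_mul]
    by_cases hd : ∀ j ≠ i, (p : ℤ) ^ m ∣ d j
    · rw [L1 m i y d hprim hd, if_pos hd, mul_one]
    · rw [if_neg hd, mul_zero, if_neg]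
      intro h
      exact hd fun j hj => dvd_trans (pow_dvd_pow _ (Nat.le_succ m)) (h j hj)

end L2

section L3

variable {p : ℕ}

/-- a shear making the direction `w` (with `w i = 1`) parallel to the `i`-th axis. -/
def shear (i : Fin r) (w z : Fin r → ℤ) : Fin r → ℤ :=
  fun j => if j = i then z i else z j - w j * z i

theorem shear_add_smul (i : Fin r) (w a z : Fin r → ℤ) (c : ℤ) :
    shear i w (a + c • z) = shear i w a + c • shear i w z := by
  funext j
  simp only [shear, Pi.add_apply, Pi.smul_apply, smul_eq_mul]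
  split_ifs <;> ring

theorem shear_prim (i : Fin r) (w z : Fin r → ℤ) (hz : Prim p z) : Prim p (shear i w z) := by
  by_contra h
  unfold Prim at h
  push Not at h
  have hi : (p : ℤ) ∣ z i := by simpa [shear] using h i
  obtain ⟨j, hj⟩ := hz
  apply hj
  rcases eq_or_ne j i with rfl | hji
  · exact hi
  · have h1 := h j
    simp only [shear, if_neg hji] at h1
    have h2 := dvd_add h1 (Dvd.dvd.mul_left hi (w j))
    simpa using h2

open Classical in
/-- the function whose line sums indicate one line. -/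
noncomputable def LL (p k : ℕ) (i : Fin r) (v w x : Fin r → ℤ) : ZMod p :=
  if ∀ j, (p : ℤ) ^ k ∣ x j - v j then
    HH p i k (shear i w (fun j => (x j - v j) / (p : ℤ) ^ k)) else 0

theorem LL_add [Fact p.Prime] (k : ℕ) (i : Fin r) (v w x z : Fin r → ℤ) :
    LL p k i v w (x + ((p : ℤ) ^ (k + kap r k)) • z) = LL p k i v w x := by
  unfold LL
  have hp : ((p : ℤ) ^ k) ≠ 0 :=
    pow_ne_zero _ (by exact_mod_cast (Fact.out : p.Prime).ne_zero)
  have h1 : ∀ j, (x + ((p : ℤ) ^ (k + kap r k)) • z) j - v j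
      = (x j - v j) + (p : ℤ) ^ k * ((p : ℤ) ^ kap r k * z j) := by
    intro j
    simp only [Pi.add_apply, Pi.smul_apply, smul_eq_mul]
    ring
  have h2 : (∀ j, (p : ℤ) ^ k ∣ (x + ((p : ℤ) ^ (k + kap r k)) • z) j - v j) ↔
      ∀ j, (p : ℤ) ^ k ∣ x j - v j := by
    refine forall_congr' fun j => ?_
    rw [h1]
    exact Int.dvd_add_left (Dvd.intro _ rfl)
  have h3 : (fun j => ((x + ((p : ℤ) ^ (k + kap r k)) • z) j - v j) / (p : ℤ) ^ k)
      = (fun j => (x j - v j) / (p : ℤ) ^ k) + ((p : ℤ) ^ kap r k) • z := by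
    funext j
    rw [h1, Int.add_mul_ediv_left _ _ hp]
    simp
  simp only [h2, h3, shear_add_smul, HH_add]

theorem unique_t [Fact p.Prime] (k : ℕ) (y d v : Fin r → ℤ) (hprim : Prim p d) (t t' : ℤ)
    (h : ∀ j, (p : ℤ) ^ k ∣ y j + t * d j - v j) (h' : ∀ j, (p : ℤ) ^ k ∣ y j + t' * d j - v j) :
    (p : ℤ) ^ k ∣ t - t' := by
  obtain ⟨j, hj⟩ := hprim
  have h1 := dvd_sub (h j) (h' j)
  have h2 : (y j + t * d j - v j) - (y j + t' * d j - v j) = (t - t') * d j := by ring
  rw [h2] at h1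
  have hc : IsCoprime ((p : ℤ) ^ k) (d j) := by
    apply IsCoprime.pow_left
    rw [Prime.coprime_iff_not_dvd (Nat.prime_iff_prime_int.1 (Fact.out : p.Prime))]
    exact hj
  exact hc.dvd_of_dvd_mul_right h1

open Classical in
theorem L3 [Fact p.Prime] (k : ℕ) (i : Fin r) (v w : Fin r → ℤ) (hw : w i = 1)
    (y d : Fin r → ℤ) (hprim : Prim p d) :
    ∑ t ∈ range (p ^ (k + kap r k)), LL p k i v w (y + (t : ℤ) • d)
      = if (∃ t0 : ℤ, ∀ j, (p : ℤ) ^ k ∣ y j + t0 * d j - v j) ∧
          (∀ j, (p : ℤ) ^ k ∣ d j - w j * d i) then 1 else 0 := by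
  have hp : ((p : ℤ) ^ k) ≠ 0 :=
    pow_ne_zero _ (by exact_mod_cast (Fact.out : p.Prime).ne_zero)
  have hcond : (∀ j ≠ i, (p : ℤ) ^ k ∣ shear i w d j) ↔ ∀ j, (p : ℤ) ^ k ∣ d j - w j * d i := by
    constructor
    · intro h j
      rcases eq_or_ne j i with rfl | hji
      · simp [hw]
      · have := h j hji
        simpa [shear, hji] using this
    · intro h j hji
      simpa [shear, hji] using h j
  rw [pow_add, sum_range_mul']
  have hstep : ∀ t ∈ range (p ^ k), ∑ s ∈ range (p ^ (kap r k)),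
      LL p k i v w (y + ((t + p ^ k * s : ℕ) : ℤ) • d)
      = if ∀ j, (p : ℤ) ^ k ∣ y j + (t : ℤ) * d j - v j then
        (if ∀ j, (p : ℤ) ^ k ∣ d j - w j * d i then 1 else 0) else 0 := by
    intro t _
    have h1 : ∀ (s : ℕ) (j : Fin r), (y + ((t + p ^ k * s : ℕ) : ℤ) • d) j - v j
        = (y j + (t : ℤ) * d j - v j) + (p : ℤ) ^ k * ((s : ℤ) * d j) := by
      intro s j
      simp only [Pi.add_apply, Pi.smul_apply, smul_eq_mul]
      push_cast
      ring
    have h2 : ∀ s : ℕ, (∀ j, (p : ℤ) ^ k ∣ (y + ((t + p ^ k * s : ℕ) : ℤ) • d) j - v j) ↔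
        ∀ j, (p : ℤ) ^ k ∣ y j + (t : ℤ) * d j - v j := by
      intro s
      refine forall_congr' fun j => ?_
      rw [h1]
      exact Int.dvd_add_left (Dvd.intro _ rfl)
    have h3 : ∀ s : ℕ, (fun j => ((y + ((t + p ^ k * s : ℕ) : ℤ) • d) j - v j) / (p : ℤ) ^ k)
        = (fun j => (y j + (t : ℤ) * d j - v j) / (p : ℤ) ^ k) + (s : ℤ) • d := by
      intro s
      funext j
      rw [h1, Int.add_mul_ediv_left _ _ hp]
      simp
    unfold LL
    simp only [h2, h3, shear_add_smul]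
    by_cases hA : ∀ j, (p : ℤ) ^ k ∣ y j + (t : ℤ) * d j - v j
    · simp only [if_pos hA]
      rw [L2 i k _ _ (shear_prim i w d hprim)]
      simp only [hcond]
    · simp only [if_neg hA]
      simp
  rw [Finset.sum_congr rfl hstep]
  by_cases hex : ∃ t0 : ℤ, ∀ j, (p : ℤ) ^ k ∣ y j + t0 * d j - v j
  · obtain ⟨t0, ht0⟩ := hex
    have hpos : (0 : ℤ) < (p : ℤ) ^ k := by
      have := (Fact.out : p.Prime).pos
      positivity
    set t1 : ℕ := (t0 % (p : ℤ) ^ k).toNat with ht1
    have ht1' : (t1 : ℤ) = t0 % (p : ℤ) ^ k := by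
      rw [ht1, Int.toNat_of_nonneg (Int.emod_nonneg _ hp)]
    have ht1r : t1 ∈ range (p ^ k) := by
      rw [Finset.mem_range]
      have := Int.emod_lt_of_pos t0 hpos
      rw [← ht1'] at this
      exact_mod_cast this
    have hA1 : ∀ j, (p : ℤ) ^ k ∣ y j + (t1 : ℤ) * d j - v j := by
      intro j
      have h4 : (p : ℤ) ^ k ∣ t0 - t1 := by
        rw [ht1']
        exact Int.dvd_self_sub_emod
      have h5 := dvd_sub (ht0 j) (Dvd.dvd.mul_right h4 (d j))
      have h6 : y j + t0 * d j - v j - (t0 - t1) * d j = y j + (t1 : ℤ) * d j - v j := by ring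
      rwa [h6] at h5
    rw [Finset.sum_eq_single t1]
    · rw [if_pos hA1]
      by_cases hB : ∀ j, (p : ℤ) ^ k ∣ d j - w j * d i
      · rw [if_pos hB, if_pos ⟨⟨t0, ht0⟩, hB⟩]
      · rw [if_neg hB, if_neg (fun h => hB h.2)]
    · intro t ht hne
      rw [if_neg]
      intro hA
      apply hne
      have h7 := unique_t k y d v hprim t t1 hA hA1
      rw [Finset.mem_range] at ht ht1r
      have h8 : (t : ℤ) % ((p : ℤ) ^ k) = (t1 : ℤ) % ((p : ℤ) ^ k) :=
        Int.ModEq.symm ((Int.modEq_iff_dvd).2 h7)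
      rw [Int.emod_eq_of_lt (by positivity) (by exact_mod_cast ht),
        Int.emod_eq_of_lt (by positivity) (by exact_mod_cast ht1r)] at h8
      exact_mod_cast h8
    · intro h; exact absurd ht1r h
  · have hF : ¬ ((∃ t0 : ℤ, ∀ j, (p : ℤ) ^ k ∣ y j + t0 * d j - v j) ∧
        (∀ j, (p : ℤ) ^ k ∣ d j - w j * d i)) := fun h => hex h.1
    rw [if_neg hF]
    refine Finset.sum_eq_zero fun t _ => ?_
    rw [if_neg]
    intro hA
    exact hex ⟨t, hA⟩

end L3

section stepA

variable {p : ℕ}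

/-- the integer vector with given residues. -/
def lift {n : ℕ} (v : Fin r → Fin n) : Fin r → ℤ := fun j => ((v j : ℕ) : ℤ)

/-- admissible representatives. -/
def Adm (p k : ℕ) (q : Fin r × (Fin r → Fin (p ^ k)) × (Fin r → Fin (p ^ k))) : Prop :=
  lift q.2.1 q.1 = 0 ∧ lift q.2.2 q.1 = 1 ∧ ∀ j < q.1, (p : ℤ) ∣ lift q.2.2 j

/-- matching of representative and line -/
def Match (p k : ℕ) (q : Fin r × (Fin r → Fin (p ^ k)) × (Fin r → Fin (p ^ k)))
    (y d : Fin r → ℤ) : Prop :=
  (∃ t0 : ℤ, ∀ j, (p : ℤ) ^ k ∣ y j + t0 * d j - lift q.2.1 j) ∧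
    (∀ j, (p : ℤ) ^ k ∣ d j - lift q.2.2 j * d q.1)

theorem lift_eq_of_dvd {n : ℕ} (v w : Fin r → Fin n) (h : ∀ j, (n : ℤ) ∣ lift v j - lift w j) :
    v = w := by
  funext j
  apply Fin.ext
  have h1 : (lift w j) % (n : ℤ) = (lift v j) % (n : ℤ) := (Int.modEq_iff_dvd).2 (h j)
  unfold lift at h1
  rw [Int.emod_eq_of_lt (by positivity) (by exact_mod_cast (w j).2),
    Int.emod_eq_of_lt (by positivity) (by exact_mod_cast (v j).2)] at h1
  exact_mod_cast h1.symm

theorem exists_lift (n : ℕ) (hn : 0 < n) (a : Fin r → ℤ) :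
    ∃ v : Fin r → Fin n, ∀ j, (n : ℤ) ∣ a j - lift v j := by
  have hn' : (n : ℤ) ≠ 0 := by exact_mod_cast hn.ne'
  have hb : ∀ j, (a j % n).toNat < n := by
    intro j
    have h1 := Int.emod_lt_of_pos (a j) (show (0 : ℤ) < n by exact_mod_cast hn)
    have h2 := Int.emod_nonneg (a j) hn'
    omega
  refine ⟨fun j => ⟨(a j % n).toNat, hb j⟩, fun j => ?_⟩
  unfold lift
  simp only
  rw [Int.toNat_of_nonneg (Int.emod_nonneg _ hn')]
  exact Int.dvd_self_sub_emod

theorem exists_match [Fact p.Prime] (k : ℕ) (hk : 1 ≤ k)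
    (g : (Fin r → ℤ) → (Fin r → ℤ) → ℤ) (hg : IsLineFun p k g)
    (y d : Fin r → ℤ) (hprim : Prim p d) :
    ∃ q : Fin r × (Fin r → Fin (p ^ k)) × (Fin r → Fin (p ^ k)),
      Adm p k q ∧ Match p k q y d ∧ g (lift q.2.1) (lift q.2.2) = g y d ∧
      ∀ q', Adm p k q' → Match p k q' y d → q' = q := by
  classical
  have hpp := (Fact.out : p.Prime)
  have hpZ : Prime (p : ℤ) := Nat.prime_iff_prime_int.1 hpp
  have hpk : (p : ℤ) ∣ (p : ℤ) ^ k := dvd_pow_self _ (by omega)
  -- the first unit index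
  have hne : (Finset.univ.filter fun j => ¬ (p : ℤ) ∣ d j).Nonempty := by
    obtain ⟨j, hj⟩ := hprim
    exact ⟨j, by simpa using hj⟩
  set i := (Finset.univ.filter fun j => ¬ (p : ℤ) ∣ d j).min' hne with hi
  have hi1 : ¬ (p : ℤ) ∣ d i := by
    have := Finset.min'_mem _ hne
    simpa using this
  have hi2 : ∀ j < i, (p : ℤ) ∣ d j := by
    intro j hj
    by_contra hcon
    have := Finset.min'_le (Finset.univ.filter fun j => ¬ (p : ℤ) ∣ d j) j (by simpa using hcon)
    exact absurd hj (not_lt.2 this)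
  have hcop : IsCoprime (d i) ((p : ℤ) ^ k) := by
    apply IsCoprime.pow_right
    exact ((Prime.coprime_iff_not_dvd hpZ).2 hi1).symm
  obtain ⟨e, b, heb⟩ := hcop
  have he : (p : ℤ) ^ k ∣ e * d i - 1 := ⟨-b, by linear_combination heb⟩
  have hep : ¬ (p : ℤ) ∣ e := by
    intro h
    have h1 := dvd_sub (Dvd.dvd.mul_right h (d i)) (dvd_trans hpk he)
    have h2 : e * d i - (e * d i - 1) = 1 := by ring
    rw [h2] at h1
    exact hpZ.not_dvd_one h1
  have hpos : 0 < p ^ k := pow_pos hpp.pos _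
  obtain ⟨v, hv⟩ := exists_lift (p ^ k) hpos (fun j => y j - e * y i * d j)
  obtain ⟨w, hw⟩ := exists_lift (p ^ k) hpos (fun j => e * d j)
  push_cast at hv hw
  have hwi : lift w i = 1 := by
    have h1 : (p : ℤ) ^ k ∣ lift w i - 1 := by
      have := dvd_sub he (hw i)
      have h2 : e * d i - 1 - (e * d i - lift w i) = lift w i - 1 := by ring
      rwa [h2] at this
    have h3 : (1 : ℤ) % ((p : ℤ) ^ k) = (lift w i) % ((p : ℤ) ^ k) := (Int.modEq_iff_dvd).2 h1
    have h4 : (1 : ℤ) < (p : ℤ) ^ k := by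
      have : 1 < p ^ k := Nat.one_lt_pow (by omega) hpp.one_lt
      exact_mod_cast this
    unfold lift at h3 ⊢
    rw [Int.emod_eq_of_lt (by norm_num) h4,
      Int.emod_eq_of_lt (by positivity) (by exact_mod_cast (w i).2)] at h3
    exact h3.symm
  have hvi : lift v i = 0 := by
    have h1 : (p : ℤ) ^ k ∣ lift v i := by
      have h0 := dvd_add (hv i) (Dvd.dvd.mul_left he (y i))
      have h2 : y i - e * y i * d i - lift v i + y i * (e * d i - 1) = - lift v i := by ring
      rw [h2] at h0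
      exact (dvd_neg).1 h0
    unfold lift at h1 ⊢
    have h3 := (v i).2
    have h5 : p ^ k ∣ (v i : ℕ) := by exact_mod_cast h1
    have := Nat.eq_zero_of_dvd_of_lt h5 h3
    exact_mod_cast this
  have hwj : ∀ j < i, (p : ℤ) ∣ lift w j := by
    intro j hj
    have h1 := dvd_sub (Dvd.dvd.mul_left (hi2 j hj) e) (dvd_trans hpk (hw j))
    have h2 : e * d j - (e * d j - lift w j) = lift w j := by ring
    rwa [h2] at h1
  refine ⟨(i, v, w), ⟨hvi, hwi, hwj⟩, ⟨⟨-(e * y i), fun j => ?_⟩, fun j => ?_⟩, ?_, ?_⟩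
  · have := hv j
    have h2 : y j + -(e * y i) * d j - lift v j = y j - e * y i * d j - lift v j := by ring
    change (p : ℤ) ^ k ∣ y j + -(e * y i) * d j - lift v j
    rw [h2]
    exact this
  · have h1 := dvd_add (Dvd.dvd.mul_right (hw j) (d i)) (Dvd.dvd.mul_right he (-(d j)))
    have h2 : (e * d j - lift w j) * d i + (e * d i - 1) * -(d j) = d j - lift w j * d i := by ring
    rw [h2] at h1
    exact h1
  · have hprime' : Prim p (e • d) := by
      refine ⟨i, ?_⟩
      simp only [Pi.smul_apply, smul_eq_mul]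
      intro h
      rcases hpZ.dvd_or_dvd h with h | h
      · exact hep h
      · exact hi1 h
    rw [← hg.unit y d e hprim hep, ← hg.shift y (e • d) (-(y i)) hprime']
    symm
    apply hg.congr _ _ _ _ hprime'
    · intro j
      have := hv j
      simp only [Pi.add_apply, Pi.smul_apply, smul_eq_mul]
      have h2 : y j + -(y i) * (e * d j) - lift v j = y j - e * y i * d j - lift v j := by ring
      rw [h2]; exact this
    · intro j
      simpa using hw j
  · rintro ⟨i', v', w'⟩ ⟨ha1, ha2, ha3⟩ ⟨⟨t0, ht0⟩, hm⟩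
    simp only at ha1 ha2 ha3 ht0 hm
    have hdi' : ¬ (p : ℤ) ∣ d i' := by
      intro h
      apply hi1
      have h1 := dvd_add (dvd_trans hpk (hm i)) (Dvd.dvd.mul_left h (lift w' i))
      simpa using h1
    obtain rfl : i' = i := by
      rcases lt_trichotomy i' i with h | h | h
      · exact absurd (hi2 _ h) hdi'
      · exact h
      · exfalso
        apply hi1
        have h1 := dvd_add (dvd_trans hpk (hm i)) (Dvd.dvd.mul_right (ha3 i h) (d i'))
        simpa using h1
    have hw' : w' = w := by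
      apply lift_eq_of_dvd
      intro j
      push_cast
      have h1 := dvd_sub (hw j) (Dvd.dvd.mul_left (hm j) e)
      have h2 := dvd_sub h1 (Dvd.dvd.mul_left he (lift w' j))
      have h3 : e * d j - lift w j - e * (d j - lift w' j * d i) - lift w' j * (e * d i - 1)
        = lift w' j - lift w j := by ring
      rwa [h3] at h2
    have hv' : v' = v := by
      apply lift_eq_of_dvd
      intro j
      push_cast
      have h0 := ht0 i
      rw [ha1] at h0
      have h1 := dvd_sub (hv j) (ht0 j)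
      have h2 := dvd_add h1 (Dvd.dvd.mul_left h0 (e * d j))
      have h3 := dvd_sub h2 (Dvd.dvd.mul_left he (t0 * d j))
      have h4 : y j - e * y i * d j - lift v j - (y j + t0 * d j - lift v' j)
        + e * d j * (y i + t0 * d i - 0) - t0 * d j * (e * d i - 1)
        = lift v' j - lift v j := by ring
      rwa [h4] at h3
    rw [hw', hv']

open Classical in
theorem stepA [Fact p.Prime] (k : ℕ) (hk : 1 ≤ k)
    (g : (Fin r → ℤ) → (Fin r → ℤ) → ℤ) (hg : IsLineFun p k g) :
    ∃ H : (Fin r → ℤ) → ZMod p,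
      (∀ x z, H (x + ((p : ℤ) ^ (k + kap r k)) • z) = H x) ∧
      ∀ y d, Prim p d →
        ∑ t ∈ range (p ^ (k + kap r k)), H (y + (t : ℤ) • d) = (g y d : ZMod p) := by
  refine ⟨fun x => ∑ q : Fin r × (Fin r → Fin (p ^ k)) × (Fin r → Fin (p ^ k)),
    if Adm p k q then (g (lift q.2.1) (lift q.2.2) : ZMod p) *
      LL p k q.1 (lift q.2.1) (lift q.2.2) x else 0, ?_, ?_⟩
  · intro x z
    simp only [LL_add]
  · intro y d hprim
    rw [Finset.sum_comm]
    have hstep : ∀ q : Fin r × (Fin r → Fin (p ^ k)) × (Fin r → Fin (p ^ k)),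
        (∑ t ∈ range (p ^ (k + kap r k)),
          if Adm p k q then (g (lift q.2.1) (lift q.2.2) : ZMod p) *
            LL p k q.1 (lift q.2.1) (lift q.2.2) (y + (t : ℤ) • d) else 0)
        = if Adm p k q ∧ Match p k q y d then (g (lift q.2.1) (lift q.2.2) : ZMod p) else 0 := by
      intro q
      by_cases hA : Adm p k q
      · simp only [if_pos hA]
        rw [← Finset.mul_sum, L3 k q.1 _ _ hA.2.1 y d hprim]
        by_cases hM : Match p k q y d
        · have hM' := hM
          unfold Match at hM'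
          rw [if_pos hM', if_pos ⟨hA, hM⟩, mul_one]
        · have hM' := hM
          unfold Match at hM'
          have hM2 : ¬ (Adm p k q ∧ Match p k q y d) := fun h => hM h.2
          rw [if_neg hM', if_neg hM2, mul_zero]
      · simp [hA]
    simp only [hstep]
    obtain ⟨q, hA, hM, hgq, huniq⟩ := exists_match k hk g hg y d hprim
    rw [Finset.sum_eq_single q]
    · rw [if_pos ⟨hA, hM⟩, hgq]
    · intro q' _ hne
      rw [if_neg]
      rintro ⟨h1, h2⟩
      exact hne (huniq q' h1 h2)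
    · intro h; exact absurd (Finset.mem_univ _) h

end stepA

section stepB

variable {p : ℕ}

theorem line_sum_congr {n : ℕ} {M : Type*} [AddCommMonoid M] (H : (Fin r → ℤ) → M)
    (hH : ∀ x z, H (x + (n : ℤ) • z) = H x) (x x' : Fin r → ℤ)
    (h : ∀ j, (n : ℤ) ∣ x j - x' j) : H x = H x' := by
  choose z hz using h
  have : x = x' + (n : ℤ) • z := by
    funext j
    simp only [Pi.add_apply, Pi.smul_apply, smul_eq_mul]
    linarith [hz j]
  rw [this, hH]

theorem line_sum_affine {n : ℕ} [NeZero n] {M : Type*} [AddCommMonoid M] (H : (Fin r → ℤ) → M)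
    (hH : ∀ x z, H (x + (n : ℤ) • z) = H x) (y d : Fin r → ℤ) (u s : ℤ)
    (hu : IsCoprime u (n : ℤ)) :
    ∑ t ∈ range n, H (y + s • d + (t : ℤ) • (u • d)) = ∑ t ∈ range n, H (y + (t : ℤ) • d) := by
  have h1 := sum_range_affine n (fun t : ℤ => H (y + t • d)) (fun t => by
    have := hH (y + t • d) d
    rw [add_assoc, ← add_smul] at this
    exact this) u s hu
  rw [← h1]
  refine Finset.sum_congr rfl fun t _ => ?_
  congr 1
  rw [add_assoc, smul_smul, ← add_smul]
  congr 2
  ring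

theorem line_sum_mul {M : Type*} [AddCommMonoid M] (H : (Fin r → ℤ) → M) (k1 k : ℕ)
    (hk : k1 ≤ k)
    (hH : ∀ x z, H (x + ((p : ℤ) ^ k1) • z) = H x) (y d : Fin r → ℤ) :
    ∑ t ∈ range (p ^ k), H (y + (t : ℤ) • d)
      = (p ^ (k - k1)) • ∑ t ∈ range (p ^ k1), H (y + (t : ℤ) • d) := by
  obtain ⟨l, rfl⟩ := Nat.exists_eq_add_of_le hk
  rw [pow_add, sum_range_mul', Finset.smul_sum]
  refine Finset.sum_congr rfl fun t _ => ?_
  have : ∀ s ∈ range (p ^ l), H (y + ((t + p ^ k1 * s : ℕ) : ℤ) • d) = H (y + (t : ℤ) • d) := by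
    intro s _
    have hx : y + ((t + p ^ k1 * s : ℕ) : ℤ) • d
        = (y + (t : ℤ) • d) + ((p : ℤ) ^ k1) • ((s : ℤ) • d) := by
      push_cast
      rw [add_smul, add_assoc, smul_smul]
    rw [hx, hH]
  rw [Finset.sum_congr rfl this]
  simp

theorem main_lemma (p : ℕ) [Fact p.Prime] (N k' : ℕ) (hk' : 1 ≤ k')
    (g : (Fin r → ℤ) → (Fin r → ℤ) → ℤ) (hg : IsLineFun p k' g) :
    ∃ k0, ∀ k ≥ k0, ∃ F : (Fin r → ℤ) → ℚ,
      (∀ x z : Fin r → ℤ, F (x + ((p : ℤ) ^ k) • z) = F x) ∧
      ∀ y d, Prim p d → ∃ m : ℤ,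
        ∑ t ∈ Finset.range (p ^ k), F (y + (t : ℤ) • d) = (g y d : ℚ) / (p : ℚ) ^ N + m := by
  have hpp := (Fact.out : p.Prime)
  have hpZ : Prime (p : ℤ) := Nat.prime_iff_prime_int.1 hpp
  have hpQ : (p : ℚ) ≠ 0 := by exact_mod_cast hpp.ne_zero
  induction N generalizing k' g with
  | zero =>
    refine ⟨0, fun k _ => ⟨fun _ => 0, fun _ _ => rfl, fun y d _ => ⟨-(g y d), ?_⟩⟩⟩
    simp
  | succ N ih =>
    obtain ⟨H, hH1, hH2⟩ := stepA k' hk' g hg
    set k1 := k' + kap r k' with hk1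
    set Hz : (Fin r → ℤ) → ℤ := fun x => ((H x).val : ℤ) with hHz
    have hHz1 : ∀ x z, Hz (x + ((p : ℤ) ^ k1) • z) = Hz x := by
      intro x z
      simp only [hHz, hH1]
    have hHz1' : ∀ x z, Hz (x + ((p ^ k1 : ℕ) : ℤ) • z) = Hz x := by
      intro x z
      push_cast
      exact hHz1 x z
    set S : (Fin r → ℤ) → (Fin r → ℤ) → ℤ :=
      fun y d => ∑ t ∈ range (p ^ k1), Hz (y + (t : ℤ) • d) with hS
    have hdvd : ∀ y d, Prim p d → (p : ℤ) ∣ g y d - S y d := by
      intro y d hprim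
      rw [← ZMod.intCast_zmod_eq_zero_iff_dvd]
      push_cast
      rw [← hH2 y d hprim, hS]
      push_cast
      rw [sub_eq_zero]
      refine Finset.sum_congr rfl fun t _ => ?_
      simp [hHz]
    have hNe : NeZero (p ^ k1) := ⟨(pow_pos hpp.pos _).ne'⟩
    set g'' : (Fin r → ℤ) → (Fin r → ℤ) → ℤ := fun y d => (g y d - S y d) / p with hg''
    have hline : IsLineFun p k1 g'' := by
      refine ⟨?_, ?_, ?_⟩
      · intro y y' d d' hprim hy hd
        have h1 : g y d = g y' d' := by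
          apply hg.congr y y' d d' hprim
          · exact fun i => dvd_trans (pow_dvd_pow _ (by omega)) (hy i)
          · exact fun i => dvd_trans (pow_dvd_pow _ (by omega)) (hd i)
        have h2 : S y d = S y' d' := by
          refine Finset.sum_congr rfl fun t _ => ?_
          apply line_sum_congr Hz hHz1'
          intro j
          have := dvd_add (hy j) (Dvd.dvd.mul_left (hd j) (t : ℤ))
          push_cast
          simp only [Pi.add_apply, Pi.smul_apply, smul_eq_mul]
          have h3 : y j - y' j + t * (d j - d' j) = y j + t * d j - (y' j + t * d' j) := by ring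
          rwa [h3] at this
        simp only [hg'', h1, h2]
      · intro y d t hprim
        have h2 : S (y + t • d) d = S y d := by
          have := line_sum_affine Hz hHz1' y d 1 t isCoprime_one_left
          rw [one_smul] at this
          exact this
        simp only [hg'', hg.shift y d t hprim, h2]
      · intro y d u hprim hu
        have h2 : S y (u • d) = S y d := by
          have hcop : IsCoprime u ((p ^ k1 : ℕ) : ℤ) := by
            push_cast
            apply IsCoprime.pow_right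
            exact ((Prime.coprime_iff_not_dvd hpZ).2 hu).symm
          have := line_sum_affine Hz hHz1' y d u 0 hcop
          rw [zero_smul, add_zero] at this
          exact this
        simp only [hg'', hg.unit y d u hprim hu, h2]
    obtain ⟨k2, hk2⟩ := ih k1 (by omega) g'' hline
    refine ⟨max k1 k2, fun k hk => ?_⟩
    have hkk1 : k1 ≤ k := (le_max_left _ _).trans hk
    have hkk2 : k2 ≤ k := (le_max_right _ _).trans hk
    obtain ⟨F, hF1, hF2⟩ := hk2 k hkk2
    have hHzk : ∀ x z, Hz (x + ((p : ℤ) ^ k) • z) = Hz x := by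
      intro x z
      obtain ⟨l, rfl⟩ := Nat.exists_eq_add_of_le hkk1
      rw [pow_add, ← smul_smul]
      exact hHz1 _ _
    refine ⟨fun x => F x + (Hz x : ℚ) / (p : ℚ) ^ (N + 1 + (k - k1)), ?_, ?_⟩
    · intro x z
      simp only [hF1, hHzk]
    · intro y d hprim
      obtain ⟨m, hm⟩ := hF2 y d hprim
      refine ⟨m, ?_⟩
      rw [Finset.sum_add_distrib, hm, ← Finset.sum_div]
      have h1 : ∑ t ∈ range (p ^ k), (Hz (y + (t : ℤ) • d) : ℚ) = (p : ℚ) ^ (k - k1) * S y d := by
        have := line_sum_mul (p := p) Hz k1 k hkk1 hHz1 y d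
        have h2 := congrArg (fun z : ℤ => (z : ℚ)) this
        simp only [nsmul_eq_mul] at h2
        push_cast at h2
        rw [h2, hS]
        push_cast
        rfl
      rw [h1]
      obtain ⟨c, hc⟩ := hdvd y d hprim
      have hg2 : g'' y d = c := by
        simp only [hg'', hc]
        exact Int.mul_ediv_cancel_left _ (by exact_mod_cast hpp.ne_zero)
      have hgy : (g y d : ℚ) = S y d + p * c := by
        have : g y d = S y d + p * c := by linarith
        exact_mod_cast this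
      rw [hg2, hgy]
      rw [pow_add ((p : ℚ)) (N + 1) (k - k1)]
      field_simp
      ring

end stepB

end Pool.Agent.Helper66.ML
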