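import Pool.Agent.Lead.PAutShift
import Pool.Agent.Helper66.RadonML

/-!
Coordinates: the data needed for the realisation theorem.
-/

open Finset

namespace Pool.Agent.Helper66.PAutCoord

open Pool.Agent.Lead.PAut Pool.Agent.Lead.PAut.Grp Pool.Agent.Helper66.ML

variable {p : ℕ} {r : ℕ}

/-- `l` is the first unit index of `d` -/
def Fst (p : ℕ) (l : Fin r) (d : Fin r → ℤ) : Prop := ¬ (p : ℤ) ∣ d l ∧ ∀ j < l, (p : ℤ) ∣ d j

open Classical in
/-- indicator of `l` being the first unit index of `d` -/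
noncomputable def gg (p : ℕ) (l : Fin r) (_y d : Fin r → ℤ) : ℤ := if Fst p l d then 1 else 0

open Classical in
/-- minus the indicator of all `d j`, `j ≠ i`, being divisible by `p` -/
noncomputable def gv (p : ℕ) (i : Fin r) (_y d : Fin r → ℤ) : ℤ :=
  if ∀ j, j ≠ i → (p : ℤ) ∣ d j then -1 else 0

theorem dvd_iff_of_sub {a b c : ℤ} (h : a ∣ b - c) : a ∣ b ↔ a ∣ c := by
  constructor
  · intro h1
    have : c = b - (b - c) := by ring
    rw [this]; exact dvd_sub h1 h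
  · intro h1
    have : b = (b - c) + c := by ring
    rw [this]; exact dvd_add h h1

theorem dvd_mul_iff' (hp : p.Prime) {u c : ℤ} (hu : ¬ (p : ℤ) ∣ u) :
    (p : ℤ) ∣ u * c ↔ (p : ℤ) ∣ c := by
  have hpZ : Prime (p : ℤ) := Nat.prime_iff_prime_int.1 hp
  constructor
  · intro h
    rcases hpZ.dvd_or_dvd h with h | h
    · exact absurd h hu
    · exact h
  · intro h; exact Dvd.dvd.mul_left h _

theorem gg_line (hp : p.Prime) (l : Fin r) : IsLineFun p 1 (gg p l) := by
  refine ⟨?_, ?_, ?_⟩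
  · intro y y' d d' _ _ hd
    have : ∀ j, (p : ℤ) ∣ d j ↔ (p : ℤ) ∣ d' j := by
      intro j
      apply dvd_iff_of_sub
      simpa using hd j
    have h : Fst p l d = Fst p l d' := by simp only [Fst, this]
    unfold gg
    rw [h]
  · intro y d t _
    rfl
  · intro y d u _ hu
    have : ∀ j, (p : ℤ) ∣ (u • d) j ↔ (p : ℤ) ∣ d j := by
      intro j
      rw [Pi.smul_apply, smul_eq_mul]
      exact dvd_mul_iff' hp hu
    have h : Fst p l (u • d) = Fst p l d := by simp only [Fst, this]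
    unfold gg
    rw [h]

theorem gv_line (hp : p.Prime) (l : Fin r) : IsLineFun p 1 (gv p l) := by
  refine ⟨?_, ?_, ?_⟩
  · intro y y' d d' _ _ hd
    have : ∀ j, (p : ℤ) ∣ d j ↔ (p : ℤ) ∣ d' j := by
      intro j
      apply dvd_iff_of_sub
      simpa using hd j
    simp only [gv, this]
  · intro y d t _
    rfl
  · intro y d u _ hu
    have : ∀ j, (p : ℤ) ∣ (u • d) j ↔ (p : ℤ) ∣ d j := by
      intro j
      rw [Pi.smul_apply, smul_eq_mul]
      exact dvd_mul_iff' hp hu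
    simp only [gv, this]

/-- the main lemma, with values in `T` -/
theorem ML_T (hp : p.Prime) (N : ℕ) (g : (Fin r → ℤ) → (Fin r → ℤ) → ℤ) (hg : IsLineFun p 1 g) :
    ∃ k0, ∀ k ≥ k0, ∃ F : (Fin r → ℤ) → T,
      (∀ x x' : Fin r → ℤ, (∀ i, (p : ℤ) ^ k ∣ x i - x' i) → F x = F x') ∧
      ∀ y d, Prim p d →
        ∑ t ∈ range (p ^ k), F (y + (t : ℤ) • d) = g y d • ((1 / (p : ℚ) ^ N : ℚ) : T) := by
  have : Fact p.Prime := ⟨hp⟩
  obtain ⟨k0, hk0⟩ := main_lemma p N 1 le_rfl g hg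
  refine ⟨k0, fun k hk => ?_⟩
  obtain ⟨F, hF1, hF2⟩ := hk0 k hk
  refine ⟨fun x => ((F x : ℚ) : T), ?_, ?_⟩
  · intro x x' h
    choose c hc using h
    have : x = x' + ((p : ℤ) ^ k) • c := by
      funext i
      rw [Pi.add_apply, Pi.smul_apply, smul_eq_mul, ← hc i]
      ring
    simp only [this, hF1]
  · intro y d hd
    obtain ⟨w, hw⟩ := hF2 y d hd
    have h1 : ∑ t ∈ range (p ^ k), ((F (y + (t : ℤ) • d) : ℚ) : T) =
        ((∑ t ∈ range (p ^ k), F (y + (t : ℤ) • d) : ℚ) : T) := by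
      rw [← QuotientAddGroup.mk'_apply, map_sum]
      rfl
    rw [h1, hw, AddCircle.coe_add]
    have h2 : ((w : ℚ) : T) = 0 := by
      rw [AddCircle.coe_eq_zero_iff]
      exact ⟨w, by simp⟩
    rw [h2, add_zero, ← AddCircle.coe_zsmul]
    congr 1
    rw [zsmul_eq_mul]
    ring

variable {K n : ℕ} {m : Fin r → ℕ}

/-- coordinates -/
def zc (b : Bgrp p K m) : Fin r → ℤ := fun i => (((b i).val / p ^ (m i - 1) : ℕ) : ℤ)

theorem pow_succ_pred (i : ℕ) (K : ℕ) (hi : 1 ≤ i) : p ^ (K + i) = p ^ (i - 1) * p ^ (K + 1) := by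
  rw [← pow_add]; congr 1; omega

theorem dvd_of_kill (hp : p.Prime) {M : ℕ} (hM : 1 ≤ M) (x : ZMod (p ^ (K + M)))
    (hx : p ^ (K + 1) • x = 0) : p ^ (M - 1) ∣ x.val := by
  have : NeZero (p ^ (K + M)) := ⟨(pow_pos hp.pos _).ne'⟩
  rw [← ZMod.natCast_zmod_val x, nsmul_eq_mul, ← Nat.cast_mul, ZMod.natCast_eq_zero_iff] at hx
  have h : p ^ (K + 1) * p ^ (M - 1) ∣ p ^ (K + 1) * x.val := by
    rwa [mul_comm (p ^ (K + 1)) (p ^ (M - 1)), ← pow_succ_pred M K hM]
  exact Nat.dvd_of_mul_dvd_mul_left (pow_pos hp.pos (K + 1)) h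

theorem val_eq (hp : p.Prime) (hm : ∀ i, 1 ≤ m i) (a : Bgrp p K m) (ha : p ^ (K + 1) • a = 0)
    (i : Fin r) : ((a i).val : ℤ) = (p : ℤ) ^ (m i - 1) * zc a i := by
  have h1 := dvd_of_kill hp (hm i) (a i) (by have := congrFun ha i; simpa using this)
  have h2 := Nat.mul_div_cancel' h1
  unfold zc
  exact_mod_cast h2.symm

theorem coe_eq (hp : p.Prime) (hm : ∀ i, 1 ≤ m i) (a : Bgrp p K m) (ha : p ^ (K + 1) • a = 0)
    (i : Fin r) : a i = (((p : ℤ) ^ (m i - 1) * zc a i : ℤ) : ZMod (p ^ (K + m i))) := by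
  have : NeZero (p ^ (K + m i)) := ⟨(pow_pos hp.pos _).ne'⟩
  rw [← val_eq hp hm a ha i]
  simp

theorem ord_kill {a : Bgrp p K m} (ha : addOrderOf a = p ^ (K + 1)) : p ^ (K + 1) • a = 0 := by
  rw [← ha]; exact addOrderOf_nsmul_eq_zero a

theorem prim_zc (hp : p.Prime) (hm : ∀ i, 1 ≤ m i) (a : Bgrp p K m)
    (ha : addOrderOf a = p ^ (K + 1)) : Prim p (zc a) := by
  by_contra hcon
  unfold Prim at hcon
  push Not at hcon
  have h0 : p ^ K • a = 0 := by
    funext i
    obtain ⟨c, hc⟩ := hcon i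
    rw [Pi.smul_apply, coe_eq hp hm a (ord_kill ha) i, hc, Pi.zero_apply, nsmul_eq_mul]
    have h1 : ((p ^ K : ℕ) : ZMod (p ^ (K + m i))) = (((p : ℤ) ^ K : ℤ) : ZMod (p ^ (K + m i))) := by
      push_cast; rfl
    rw [h1, ← Int.cast_mul, ZMod.intCast_zmod_eq_zero_iff_dvd]
    refine ⟨c, ?_⟩
    have h2 : ((p ^ (K + m i) : ℕ) : ℤ) = (p : ℤ) ^ K * ((p : ℤ) ^ (m i - 1) * p) := by
      rw [← pow_succ, ← pow_add]
      push_cast
      congr 1
      have := hm i
      omega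
    rw [h2]
    ring
  have h1 : p ^ (K + 1) ∣ p ^ K := by
    rw [← ha]; exact addOrderOf_dvd_of_nsmul_eq_zero h0
  have := (Nat.pow_dvd_pow_iff_le_right hp.one_lt).1 h1
  omega

theorem zc_add (hp : p.Prime) (hm : ∀ i, 1 ≤ m i) (y a : Bgrp p K m)
    (ha : p ^ (K + 1) • a = 0) (t : ℕ) (i : Fin r) :
    (p : ℤ) ^ (K + 1) ∣ zc (y + t • a) i - (zc y i + t * zc a i) := by
  have : NeZero (p ^ (K + m i)) := ⟨(pow_pos hp.pos _).ne'⟩
  set P : ℤ := (p : ℤ) ^ (m i - 1) with hP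
  have hPpos : 0 < P := pow_pos (by exact_mod_cast hp.pos) _
  have h1 : (((y + t • a) i).val : ℤ) % ((p ^ (K + m i) : ℕ) : ℤ) =
      (((y i).val : ℤ) + t * (P * zc a i)) % ((p ^ (K + m i) : ℕ) : ℤ) := by
    apply (ZMod.intCast_eq_intCast_iff' _ _ _).1
    push_cast
    rw [ZMod.natCast_zmod_val, ZMod.natCast_zmod_val, Pi.add_apply, Pi.smul_apply, nsmul_eq_mul]
    congr 2
    rw [coe_eq hp hm a ha i, hP]
    push_cast
    rfl
  have h2 : ((p ^ (K + m i) : ℕ) : ℤ) = P * (p : ℤ) ^ (K + 1) := by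
    rw [pow_succ_pred (m i) K (hm i)]
    push_cast
    rfl
  obtain ⟨c, hc⟩ := Int.ModEq.dvd (show ((y i).val : ℤ) + t * (P * zc a i) ≡ (((y + t • a) i).val : ℤ)
    [ZMOD ((p ^ (K + m i) : ℕ) : ℤ)] from h1.symm)
  rw [h2] at hc
  have h3 : ∀ b : Bgrp p K m, zc b i = ((b i).val : ℤ) / P := by
    intro b
    unfold zc
    rw [hP]
    push_cast
    rfl
  refine ⟨c, ?_⟩
  have h4 : (((y + t • a) i).val : ℤ) = ((y i).val : ℤ) + P * (t * zc a i + (p : ℤ) ^ (K + 1) * c) := by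
    linear_combination hc
  rw [h3 (y + t • a), h3 y, h4, Int.add_mul_ediv_left _ _ hPpos.ne']
  ring

/-- transport of line sums -/
theorem line_sum (hp : p.Prime) (hm : ∀ i, 1 ≤ m i) (F : (Fin r → ℤ) → T)
    (hF : ∀ x x' : Fin r → ℤ, (∀ i, (p : ℤ) ^ (K + 1) ∣ x i - x' i) → F x = F x')
    (y a : Bgrp p K m) (ha : p ^ (K + 1) • a = 0) (q : ℕ) :
    ∑ t ∈ range q, F (zc (y + t • a)) = ∑ t ∈ range q, F (zc y + (t : ℤ) • zc a) := by
  refine Finset.sum_congr rfl fun t _ => ?_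
  apply hF
  intro i
  exact zc_add hp hm y a ha t i

/-- the characters -/
noncomputable def chi (n : ℕ) (a : Bgrp p K m) : Bgrp p K m →+ T :=
  ∑ l, gg p l 0 (zc a) • (p ^ (K + 1 - n)) •
    ((E (p ^ (K + m l))).comp (Pi.evalAddMonoidHom (fun i => ZMod (p ^ (K + m i))) l))

theorem chi_apply (hp : p.Prime) (hm : ∀ i, 1 ≤ m i) (hn : n ≤ K + 1) (a b : Bgrp p K m) :
    chi n a b = ∑ l, gg p l 0 (zc a) • (b l).val • ((1 / (p : ℚ) ^ (m l - 1 + n) : ℚ) : T) := by
  unfold chi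
  rw [AddMonoidHom.finsetSum_apply]
  refine Finset.sum_congr rfl fun l _ => ?_
  rw [AddMonoidHom.smul_apply, AddMonoidHom.smul_apply]
  congr 1
  have : NeZero (p ^ (K + m l)) := ⟨(pow_pos hp.pos _).ne'⟩
  rw [AddMonoidHom.comp_apply, Pi.evalAddMonoidHom_apply, ← ZMod.natCast_zmod_val (b l), E_natCast,
    ← AddCircle.coe_nsmul, ← AddCircle.coe_nsmul]
  congr 1
  rw [ZMod.natCast_zmod_val, nsmul_eq_mul, nsmul_eq_mul]
  have hpQ : (p : ℚ) ≠ 0 := by exact_mod_cast hp.ne_zero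
  have h1 : K + m l = (K + 1 - n) + (m l - 1 + n) := by have := hm l; omega
  have h2 : ((p ^ (K + m l) : ℕ) : ℚ) = (p : ℚ) ^ (K + 1 - n) * (p : ℚ) ^ (m l - 1 + n) := by
    rw [← pow_add, ← h1]
    push_cast
    rfl
  rw [h2]
  push_cast
  field_simp

theorem chi_first (hp : p.Prime) (hm : ∀ i, 1 ≤ m i) (hn : n ≤ K + 1) (a b : Bgrp p K m)
    (l : Fin r) (hl : Fst p l (zc a)) :
    chi n a b = (b l).val • ((1 / (p : ℚ) ^ (m l - 1 + n) : ℚ) : T) := by
  rw [chi_apply hp hm hn, Finset.sum_eq_single l]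
  · unfold gg
    rw [if_pos hl, one_smul]
  · intro j _ hj
    unfold gg
    rw [if_neg, zero_smul]
    intro hj'
    rcases lt_trichotomy j l with h | h | h
    · exact hj'.1 (hl.2 j h)
    · exact hj h
    · exact hl.1 (hj'.2 l h)
  · intro h
    exact absurd (Finset.mem_univ l) h

theorem exists_first {d : Fin r → ℤ} (hd : Prim p d) : ∃ l, Fst p l d := by
  classical
  obtain ⟨i, hi⟩ := hd
  have hne : (Finset.univ.filter fun i : Fin r => ¬ (p : ℤ) ∣ d i).Nonempty := ⟨i, by simpa using hi⟩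
  refine ⟨(Finset.univ.filter fun i : Fin r => ¬ (p : ℤ) ∣ d i).min' hne, ?_, ?_⟩
  · have := Finset.min'_mem _ hne
    simpa using this
  · intro j hj
    by_contra hcon
    have := Finset.min'_le (Finset.univ.filter fun i : Fin r => ¬ (p : ℤ) ∣ d i) j (by simpa using hcon)
    exact absurd hj (not_lt.2 this)

theorem chi_ord (hp : p.Prime) (hm : ∀ i, 1 ≤ m i) (hn : n ≤ K + 1) (a : Bgrp p K m)
    (ha : addOrderOf a = p ^ (K + 1)) : addOrderOf (chi n a a) = p ^ n := by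
  obtain ⟨l, hl⟩ := exists_first (prim_zc hp hm a ha)
  rw [chi_first hp hm hn a a l hl]
  have hpQ : (p : ℚ) ≠ 0 := by exact_mod_cast hp.ne_zero
  have h1 := val_eq hp hm a (ord_kill ha) l
  have h2 : (a l).val = p ^ (m l - 1) * ((a l).val / p ^ (m l - 1)) := by
    unfold zc at h1
    exact_mod_cast h1
  set α := (a l).val / p ^ (m l - 1) with hα
  have h3 : ¬ p ∣ α := by
    have := hl.1
    unfold zc at this
    intro hcon
    apply this
    exact_mod_cast hcon
  have h4 : (a l).val • ((1 / (p : ℚ) ^ (m l - 1 + n) : ℚ) : T) =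
      ((((α : ℕ) : ℚ) / ((p ^ n : ℕ) : ℚ) * 1 : ℚ) : T) := by
    rw [← AddCircle.coe_nsmul]
    congr 1
    rw [nsmul_eq_mul, h2]
    push_cast
    rw [pow_add]
    field_simp
  rw [h4]
  apply AddCircle.addOrderOf_div_of_gcd_eq_one (pow_pos hp.pos n)
  exact Nat.Coprime.pow_right n ((Nat.Prime.coprime_iff_not_dvd hp).2 h3).symm

/-- the field `ex` -/
theorem chi_ex (hp : p.Prime) (hm : ∀ i, 1 ≤ m i) (hn : n ≤ K + 1)
    (hML : ∀ l : Fin r, ∃ F : (Fin r → ℤ) → T,
      (∀ x x' : Fin r → ℤ, (∀ i, (p : ℤ) ^ (K + 1) ∣ x i - x' i) → F x = F x') ∧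
      ∀ y d, Prim p d → ∑ t ∈ range (p ^ (K + 1)), F (y + (t : ℤ) • d) =
        gg p l y d • ((1 / (p : ℚ) ^ (m l - 1 + n) : ℚ) : T))
    (b : Bgrp p K m) : ∃ F, Cond (p ^ (K + 1)) (chi n) b F := by
  choose F hF1 hF2 using hML
  refine ⟨fun x => ∑ l, (b l).val • F l (zc x), ?_⟩
  intro a ha y
  rw [Finset.sum_comm, chi_apply hp hm hn]
  refine Finset.sum_congr rfl fun l _ => ?_
  rw [← Finset.smul_sum, line_sum hp hm (F l) (hF1 l) y a (ord_kill ha), hF2 l _ _ (prim_zc hp hm a ha)]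
  rw [smul_comm]
  rfl

/-- periodicity -/
theorem sum_shift_one {B : Type} [AddCommGroup B] (h : B → T) (a y : B) (q : ℕ) (hq : q • a = 0) :
    ∑ t ∈ range q, h (y + a + t • a) = ∑ t ∈ range q, h (y + t • a) := by
  have h1 : ∀ t : ℕ, y + a + t • a = y + (t + 1) • a := by
    intro t; rw [succ_nsmul]; abel
  simp only [h1]
  have h2 := Finset.sum_range_succ (fun t => h (y + t • a)) q
  have h3 := Finset.sum_range_succ' (fun t => h (y + t • a)) q
  rw [h2] at h3
  simp only [hq, zero_smul, add_zero] at h3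
  exact (add_right_cancel h3).symm

theorem sum_shift {B : Type} [AddCommGroup B] (h : B → T) (a y : B) (q : ℕ) (hq : q • a = 0)
    (j : ℕ) : ∑ t ∈ range q, h (y + j • a + t • a) = ∑ t ∈ range q, h (y + t • a) := by
  induction j with
  | zero => simp
  | succ j ih =>
    rw [← ih, ← sum_shift_one h a (y + j • a) q hq]
    refine Finset.sum_congr rfl fun t _ => ?_
    congr 1
    rw [succ_nsmul]
    abel

/-- the field `sep` -/
theorem chi_sep (hp : p.Prime) (hm : ∀ i, 1 ≤ m i) (hK : 1 ≤ K)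
    (b : Bgrp p K m) (s : ℕ) (hs : ¬ p ∣ s) (hsb : s • b ≠ b) :
    ∃ f, Cond (p ^ (K + 1)) (chi (K := K) (m := m) n) 0 f ∧
      ∃ v, f v = 0 ∧ f (v - b) = 0 ∧ f (v - s • b) ≠ 0 := by
  classical
  have hi : ∃ i, s • b i ≠ b i := by
    by_contra hcon
    push Not at hcon
    exact hsb (funext hcon)
  obtain ⟨i, hi⟩ := hi
  have hN : NeZero (p ^ (K + m i)) := ⟨(pow_pos hp.pos _).ne'⟩
  have hsu : IsUnit (s : ZMod (p ^ (K + m i))) := by
    rw [ZMod.isUnit_iff_coprime]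
    exact Nat.Coprime.pow_right _ ((Nat.Prime.coprime_iff_not_dvd hp).2 hs).symm
  have hb0 : s • b i ≠ 0 := by
    intro h0
    rw [nsmul_eq_mul, hsu.mul_right_eq_zero] at h0
    rw [h0] at hi
    simp at hi
  set c : ZMod (p ^ (K + m i)) := - (s • b i) with hc
  have hc0 : c ≠ 0 := by rw [hc]; simpa using hb0
  have hcb : c ≠ - b i := by rw [hc]; intro h; exact hi (neg_injective h)
  -- choice of `v`
  obtain ⟨j, hj0, hj1, hj2⟩ : ∃ j : ℕ, ((p ^ (m i - 1) * j : ℕ) : ZMod (p ^ (K + m i))) ≠ 0 ∧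
      ((p ^ (m i - 1) * j : ℕ) : ZMod (p ^ (K + m i))) ≠ 0 - c ∧
      ((p ^ (m i - 1) * j : ℕ) : ZMod (p ^ (K + m i))) ≠ - b i - c := by
    have hinj : ∀ j j' : ℕ, j < 4 → j' < 4 → ((p ^ (m i - 1) * j : ℕ) : ZMod (p ^ (K + m i))) =
        ((p ^ (m i - 1) * j' : ℕ) : ZMod (p ^ (K + m i))) → j = j' := by
      intro j j' hj hj' h
      rw [ZMod.natCast_eq_natCast_iff] at h
      have h4 : 4 ≤ p ^ (K + 1) := by
        calc 4 = 2 ^ 2 := by norm_num
          _ ≤ p ^ 2 := Nat.pow_le_pow_left hp.two_le 2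
          _ ≤ p ^ (K + 1) := Nat.pow_le_pow_right hp.pos (by omega)
      have hlt : ∀ j, j < 4 → p ^ (m i - 1) * j < p ^ (K + m i) := by
        intro j hj
        rw [pow_succ_pred (m i) K (hm i)]
        exact Nat.mul_lt_mul_of_pos_left (lt_of_lt_of_le hj h4) (pow_pos hp.pos _)
      have := Nat.ModEq.eq_of_lt_of_lt h (hlt j hj) (hlt j' hj')
      exact Nat.eq_of_mul_eq_mul_left (pow_pos hp.pos _) this
    by_contra hcon
    push Not at hcon
    have h0 : ∀ j : ℕ, 1 ≤ j → j < 4 → ((p ^ (m i - 1) * j : ℕ) : ZMod (p ^ (K + m i))) ≠ 0 := by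
      intro j hj1 hj4 h
      have := hinj j 0 hj4 (by norm_num) (by simpa using h)
      omega
    have hc1 := hcon 1 (h0 1 (by norm_num) (by norm_num))
    have hc2 := hcon 2 (h0 2 (by norm_num) (by norm_num))
    have hc3 := hcon 3 (h0 3 (by norm_num) (by norm_num))
    have h12 : ((p ^ (m i - 1) * 1 : ℕ) : ZMod (p ^ (K + m i))) ≠
        ((p ^ (m i - 1) * 2 : ℕ) : ZMod (p ^ (K + m i))) :=
      fun h => absurd (hinj 1 2 (by norm_num) (by norm_num) h) (by norm_num)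
    have h13 : ((p ^ (m i - 1) * 1 : ℕ) : ZMod (p ^ (K + m i))) ≠
        ((p ^ (m i - 1) * 3 : ℕ) : ZMod (p ^ (K + m i))) :=
      fun h => absurd (hinj 1 3 (by norm_num) (by norm_num) h) (by norm_num)
    have h23 : ((p ^ (m i - 1) * 2 : ℕ) : ZMod (p ^ (K + m i))) ≠
        ((p ^ (m i - 1) * 3 : ℕ) : ZMod (p ^ (K + m i))) :=
      fun h => absurd (hinj 2 3 (by norm_num) (by norm_num) h) (by norm_num)
    by_cases e1 : ((p ^ (m i - 1) * 1 : ℕ) : ZMod (p ^ (K + m i))) = 0 - c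
    · have e2 : ((p ^ (m i - 1) * 2 : ℕ) : ZMod (p ^ (K + m i))) ≠ 0 - c :=
        fun h => h12 (e1.trans h.symm)
      have e3 : ((p ^ (m i - 1) * 3 : ℕ) : ZMod (p ^ (K + m i))) ≠ 0 - c :=
        fun h => h13 (e1.trans h.symm)
      exact h23 ((hc2 e2).trans (hc3 e3).symm)
    · have f1 := hc1 e1
      by_cases e2 : ((p ^ (m i - 1) * 2 : ℕ) : ZMod (p ^ (K + m i))) = 0 - c
      · have e3 : ((p ^ (m i - 1) * 3 : ℕ) : ZMod (p ^ (K + m i))) ≠ 0 - c :=
          fun h => h23 (e2.trans h.symm)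
        exact h13 (f1.trans (hc3 e3).symm)
      · exact h12 (f1.trans (hc2 e2).symm)
  set v : ZMod (p ^ (K + m i)) := ((p ^ (m i - 1) * j : ℕ) : ZMod (p ^ (K + m i))) with hv
  set w : T := ((1 / (p : ℚ) : ℚ) : T) with hw
  have hw0 : w ≠ 0 := by
    rw [hw, Ne, AddCircle.coe_eq_zero_iff]
    rintro ⟨k, hk⟩
    rw [zsmul_eq_mul, mul_one, eq_div_iff (by exact_mod_cast hp.ne_zero)] at hk
    have : k * (p : ℤ) = 1 := by exact_mod_cast hk
    have h2 := hp.two_le
    have h3 : (p : ℤ) ∣ 1 := ⟨k, by linarith⟩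
    have h4 := Int.le_of_dvd (by norm_num) h3
    omega
  have hpw : p • w = 0 := by
    rw [hw, ← AddCircle.coe_nsmul, AddCircle.coe_eq_zero_iff]
    refine ⟨1, ?_⟩
    have : (p : ℚ) ≠ 0 := by exact_mod_cast hp.ne_zero
    rw [one_smul, nsmul_eq_mul, mul_one_div, div_self this]
  set h : ZMod (p ^ (K + m i)) → T := fun x => if x = c then w else 0 with hh
  have hline : ∀ a : Bgrp p K m, addOrderOf a = p ^ (K + 1) → ∀ y : ZMod (p ^ (K + m i)),
      ∑ t ∈ range (p ^ (K + 1)), h (y + t • a i) =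
      ∑ t ∈ range (p ^ (K + 1)), h (y - v + t • a i) := by
    intro a ha y
    have hk := ord_kill ha
    have hki : p ^ (K + 1) • a i = 0 := by have := congrFun hk i; simpa using this
    by_cases h0 : p ^ K • a i = 0
    · have key : ∀ y : ZMod (p ^ (K + m i)), ∑ t ∈ range (p ^ (K + 1)), h (y + t • a i) = 0 := by
        intro y
        rw [pow_succ, sum_range_mul'']
        refine Finset.sum_eq_zero fun t _ => ?_
        have h5 : ∀ s ∈ range p, h (y + (t + p ^ K * s) • a i) = h (y + t • a i) := by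
          intro s _
          congr 2
          rw [add_nsmul, mul_comm, mul_nsmul', h0, smul_zero, add_zero]
        rw [Finset.sum_congr rfl h5, Finset.sum_const, card_range, hh]
        dsimp only
        split_ifs
        · exact hpw
        · simp
      rw [key, key]
    · -- `a i` generates the torsion
      have hval := dvd_of_kill hp (hm i) (a i) hki
      obtain ⟨α, hα⟩ := hval
      have hai : a i = ((p ^ (m i - 1) * α : ℕ) : ZMod (p ^ (K + m i))) := by
        rw [← hα, ZMod.natCast_zmod_val]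
      have hpα : ¬ p ∣ α := by
        rintro ⟨β, hβ⟩
        apply h0
        rw [hai, nsmul_eq_mul, ← Nat.cast_mul, ZMod.natCast_eq_zero_iff, hβ]
        refine ⟨β, ?_⟩
        have : K + m i = K + (m i - 1) + 1 := by have := hm i; omega
        rw [this, pow_succ, pow_add]
        ring
      have hαu : IsUnit (α : ZMod (p ^ (K + m i))) := by
        rw [ZMod.isUnit_iff_coprime]
        exact Nat.Coprime.pow_right _ ((Nat.Prime.coprime_iff_not_dvd hp).2 hpα).symm
      obtain ⟨u, hu⟩ := hαu.exists_left_inv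
      have hvj : v = (u * (j : ZMod (p ^ (K + m i)))).val • a i := by
        rw [nsmul_eq_mul, ZMod.natCast_zmod_val, hai, hv]
        push_cast
        linear_combination (-(p : ZMod (p ^ (K + m i))) ^ (m i - 1) * j) * hu
      rw [← sum_shift h (a i) (y - v) _ hki (u * (j : ZMod (p ^ (K + m i)))).val, ← hvj, sub_add_cancel]
  refine ⟨fun x => h (x i) - h (x i - v), ?_, 0, ?_, ?_, ?_⟩
  · intro a ha y
    rw [map_zero, Finset.sum_sub_distrib, sub_eq_zero]
    have := hline a ha (y i)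
    rw [show (∑ t ∈ range (p ^ (K + 1)), h ((y + t • a) i)) =
      ∑ t ∈ range (p ^ (K + 1)), h (y i + t • a i) from rfl, this]
    refine Finset.sum_congr rfl fun t _ => ?_
    congr 1
    rw [Pi.add_apply, Pi.smul_apply]
    abel
  · simp only [Pi.zero_apply, hh]
    rw [if_neg hc0.symm, if_neg, sub_zero]
    intro h1
    apply hj1
    rw [← h1]; abel
  · simp only [Pi.sub_apply, Pi.zero_apply, hh, zero_sub]
    rw [if_neg hcb.symm, if_neg, sub_zero]
    intro h1
    apply hj2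
    rw [← h1]; abel
  · simp only [Pi.sub_apply, Pi.zero_apply, Pi.smul_apply, hh, zero_sub]
    rw [if_pos hc.symm, if_neg]
    · simpa using hw0
    · intro h1
      apply hj0
      rw [← hc] at h1
      have : v = c - (c - v) := by abel
      rw [this, h1]; abel

open Classical in
/-- `Φ(z/p)` if `p ∣ z`, otherwise `0`. -/
noncomputable def Psi (p : ℕ) (Φ : (Fin r → ℤ) → T) (z : Fin r → ℤ) : T :=
  if ∀ j, (p : ℤ) ∣ z j then Φ (fun j => z j / p) else 0

theorem Psi_per (hp : p.Prime) (Φ : (Fin r → ℤ) → T)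
    (hΦ : ∀ x x' : Fin r → ℤ, (∀ i, (p : ℤ) ^ K ∣ x i - x' i) → Φ x = Φ x')
    (z z' : Fin r → ℤ) (h : ∀ i, (p : ℤ) ^ (K + 1) ∣ z i - z' i) : Psi p Φ z = Psi p Φ z' := by
  have hp0 : (p : ℤ) ≠ 0 := by exact_mod_cast hp.ne_zero
  have h1 : ∀ j, (p : ℤ) ∣ z j ↔ (p : ℤ) ∣ z' j := fun j =>
    dvd_iff_of_sub (dvd_trans (dvd_pow_self _ (by omega)) (h j))
  by_cases h2 : ∀ j, (p : ℤ) ∣ z' j
  · unfold Psi
    rw [if_pos (fun j => (h1 j).2 (h2 j)), if_pos h2]
    apply hΦ
    intro i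
    obtain ⟨a, ha⟩ := h2 i
    obtain ⟨b, hb⟩ := (h1 i).2 (h2 i)
    obtain ⟨c, hc⟩ := h i
    rw [ha, hb, Int.mul_ediv_cancel_left _ hp0, Int.mul_ediv_cancel_left _ hp0]
    refine ⟨c, ?_⟩
    apply mul_left_cancel₀ hp0
    rw [ha, hb] at hc
    rw [mul_sub, hc, pow_succ]
    ring
  · unfold Psi
    rw [if_neg (fun h3 => h2 fun j => (h1 j).1 (h3 j)), if_neg h2]

theorem Psi_mul (hp : p.Prime) (Φ : (Fin r → ℤ) → T) (z : Fin r → ℤ) :
    Psi p Φ ((p : ℤ) • z) = Φ z := by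
  have hp0 : (p : ℤ) ≠ 0 := by exact_mod_cast hp.ne_zero
  unfold Psi
  rw [if_pos (fun j => ⟨z j, by simp⟩)]
  congr 1
  funext j
  rw [Pi.smul_apply, smul_eq_mul, Int.mul_ediv_cancel_left _ hp0]

open Classical in
theorem Psi_line (hp : p.Prime) (i : Fin r) (Φ : (Fin r → ℤ) → T)
    (hΦ : ∀ x x' : Fin r → ℤ, (∀ i, (p : ℤ) ^ K ∣ x i - x' i) → Φ x = Φ x')
    (hsum : ∀ y d, Prim p d → ∑ t ∈ range (p ^ K), Φ (y + (t : ℤ) • d) =
        gv p i y d • ((1 / (p : ℚ) ^ n : ℚ) : T)) (w d : Fin r → ℤ) (hd : Prim p d) :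
    ∑ t ∈ range (p ^ (K + 1)), Psi p Φ (w + (t : ℤ) • d) =
      if ∃ t : ℤ, ∀ j, (p : ℤ) ∣ w j + t * d j then gv p i 0 d • ((1 / (p : ℚ) ^ n : ℚ) : T)
        else 0 := by
  have hp0 : (p : ℤ) ≠ 0 := by exact_mod_cast hp.ne_zero
  have hNe : NeZero (p ^ (K + 1)) := ⟨(pow_pos hp.pos _).ne'⟩
  split_ifs with hex
  · obtain ⟨t0, ht0⟩ := hex
    choose w' hw' using ht0
    have hw : w + t0 • d = (p : ℤ) • w' := by
      funext j
      exact hw' j
    have h1 := line_sum_affine (n := p ^ (K + 1)) (Psi p Φ) (by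
      intro x z
      apply Psi_per hp Φ hΦ
      intro j
      refine ⟨z j, ?_⟩
      rw [Pi.add_apply, Pi.smul_apply, smul_eq_mul]
      push_cast
      ring) w d 1 t0 isCoprime_one_left
    rw [one_smul] at h1
    rw [← h1, hw, pow_succ' p K, ML.sum_range_mul', Finset.sum_eq_single 0]
    · rw [show gv p i 0 d = gv p i w' d from rfl, ← hsum w' d hd]
      refine Finset.sum_congr rfl fun s _ => ?_
      rw [← Psi_mul hp Φ]
      congr 1
      funext j
      simp only [Pi.add_apply, Pi.smul_apply, smul_eq_mul]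
      push_cast
      ring
    · intro t ht ht0'
      refine Finset.sum_eq_zero fun s _ => ?_
      unfold Psi
      rw [if_neg]
      intro hcon
      obtain ⟨j, hj⟩ := hd
      have h2 := hcon j
      simp only [Pi.add_apply, Pi.smul_apply, smul_eq_mul] at h2
      have h3 : (p : ℤ) ∣ (t : ℤ) * d j := by
        have h4 : (t : ℤ) * d j = ((p : ℤ) * w' j + ((t + p * s : ℕ) : ℤ) * d j) -
          p * (w' j + s * d j) := by push_cast; ring
        rw [h4]
        exact dvd_sub h2 (Dvd.intro _ rfl)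
      have h5 : ¬ (p : ℤ) ∣ (t : ℤ) := by
        intro h6
        have h7 : p ∣ t := by exact_mod_cast h6
        have h8 := Nat.le_of_dvd (Nat.pos_of_ne_zero ht0') h7
        have h9 := Finset.mem_range.1 ht
        omega
      exact hj ((dvd_mul_iff' hp h5).1 h3)
    · intro h
      exact absurd (Finset.mem_range.2 hp.pos) h
  · refine Finset.sum_eq_zero fun t _ => ?_
    unfold Psi
    rw [if_neg]
    intro hcon
    exact hex ⟨t, fun j => by simpa using hcon j⟩

/-- solvability is not changed by subtracting `e_i`, if `d ≡ u e_i` -/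
theorem solv_iff (hp : p.Prime) (i : Fin r) (d : Fin r → ℤ) (hd : Prim p d)
    (hdi : ∀ j, j ≠ i → (p : ℤ) ∣ d j) (z : Fin r → ℤ) :
    (∃ t : ℤ, ∀ j, (p : ℤ) ∣ z j + t * d j) ↔ ∀ j, j ≠ i → (p : ℤ) ∣ z j := by
  have hpZ : Prime (p : ℤ) := Nat.prime_iff_prime_int.1 hp
  constructor
  · rintro ⟨t, ht⟩ j hj
    exact (Int.dvd_add_left (Dvd.dvd.mul_left (hdi j hj) t)).1 (ht j)
  · intro h
    have hi : ¬ (p : ℤ) ∣ d i := by
      obtain ⟨k, hk⟩ := hd
      by_cases hki : k = i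
      · rwa [← hki]
      · exact absurd (hdi k hki) hk
    obtain ⟨a, b, hab⟩ := (Prime.coprime_iff_not_dvd hpZ).2 hi
    refine ⟨- z i * b, fun j => ?_⟩
    by_cases hj : j = i
    · subst hj
      refine ⟨a * z j, ?_⟩
      linear_combination (- z j) * hab
    · exact dvd_add (h j hj) (Dvd.dvd.mul_left (hdi j hj) _)

/-- sums of a `Cond` function along `a` -/
theorem cond_nsmul {B : Type} [AddCommGroup B] {q : ℕ} {χ : B → B →+ T} {a : B} {F : B → T}
    (h : Cond q χ a F) (s : ℕ) : Cond q χ (s • a) (fun y => ∑ i ∈ range s, F (y + i • a)) := by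
  intro a' ha' y
  rw [Finset.sum_comm, map_nsmul]
  have : ∀ i ∈ range s, ∑ t ∈ range q, F (y + t • a' + i • a) = χ a' a := by
    intro i _
    rw [← h a' ha' (y + i • a)]
    refine Finset.sum_congr rfl fun t _ => ?_
    congr 1
    abel
  rw [Finset.sum_congr rfl this]
  simp

theorem single_val (hp : p.Prime) (i : Fin r) (e : ℕ) (he : e < K + m i) :
    ((p ^ e : ℕ) : ZMod (p ^ (K + m i))).val = p ^ e :=
  ZMod.val_cast_of_lt (Nat.pow_lt_pow_right hp.one_lt he)

theorem zc_single (hp : p.Prime) (i : Fin r) (e : ℕ) (he : e < K + m i) (hm : m i - 1 ≤ e) :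
    zc (Pi.single i ((p ^ e : ℕ) : ZMod (p ^ (K + m i))) : Bgrp p K m) =
      Pi.single i ((p : ℤ) ^ (e - (m i - 1))) := by
  funext j
  unfold zc
  by_cases hj : j = i
  · subst hj
    rw [Pi.single_eq_same, Pi.single_eq_same, single_val hp j e he,
      Nat.pow_div hm hp.pos]
    push_cast
    rfl
  · rw [Pi.single_eq_of_ne hj, Pi.single_eq_of_ne hj]
    simp

theorem zc_zero : zc (0 : Bgrp p K m) = 0 := by
  funext j
  unfold zc
  simp

theorem single_ord' (hp : p.Prime) (i : Fin r) (hm : 1 ≤ m i) :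
    addOrderOf (Pi.single i ((p ^ (m i - 1) : ℕ) : ZMod (p ^ (K + m i))) : Bgrp p K m) =
      p ^ (K + 1) := by
  have h0 : addOrderOf (Pi.single i ((p ^ (m i - 1) : ℕ) : ZMod (p ^ (K + m i))) : Bgrp p K m) =
      addOrderOf ((p ^ (m i - 1) : ℕ) : ZMod (p ^ (K + m i))) :=
    addOrderOf_injective (AddMonoidHom.single (fun i => ZMod (p ^ (K + m i))) i)
      (fun a b hab => Pi.single_injective (M := fun i => ZMod (p ^ (K + m i))) i hab) _
  rw [h0, ZMod.addOrderOf_coe _ (pow_pos hp.pos _).ne']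
  rw [Nat.gcd_eq_right (pow_dvd_pow p (by omega)), Nat.pow_div (by omega) hp.pos]
  congr 1
  omega

/-- the field `van` -/
theorem chi_van (hp : p.Prime) (hm : ∀ i, 1 ≤ m i) (hn : n ≤ K + 1) (hK : 1 ≤ K) (i : Fin r)
    (hex : ∀ b : Bgrp p K m, ∃ F, Cond (p ^ (K + 1)) (chi n) b F)
    (Φ : (Fin r → ℤ) → T)
    (hΦ : ∀ x x' : Fin r → ℤ, (∀ i, (p : ℤ) ^ K ∣ x i - x' i) → Φ x = Φ x')
    (hsum : ∀ y d, Prim p d → ∑ t ∈ range (p ^ K), Φ (y + (t : ℤ) • d) =
        gv p i y d • ((1 / (p : ℚ) ^ n : ℚ) : T)) :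
    ∃ F, Cond (p ^ (K + 1)) (chi n)
      (Pi.single i ((p ^ m i : ℕ) : ZMod (p ^ (K + m i))) : Bgrp p K m) F ∧
    ∃ y0, ∑ t ∈ range (p ^ K), F (y0 + t •
      (Pi.single i ((p ^ m i : ℕ) : ZMod (p ^ (K + m i))) : Bgrp p K m)) = 0 := by
  classical
  have hp0 : (p : ℤ) ≠ 0 := by exact_mod_cast hp.ne_zero
  set a : Bgrp p K m := Pi.single i ((p ^ (m i - 1) : ℕ) : ZMod (p ^ (K + m i))) with ha
  set b : Bgrp p K m := Pi.single i ((p ^ m i : ℕ) : ZMod (p ^ (K + m i))) with hb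
  have hpa : p • a = b := by
    rw [ha, hb, ← Pi.single_smul, nsmul_eq_mul, ← Nat.cast_mul, ← pow_succ']
    congr 3
    have := hm i
    omega
  obtain ⟨Fa, hFa⟩ := hex a
  have hFb := cond_nsmul hFa p
  rw [hpa] at hFb
  have haord : addOrderOf a = p ^ (K + 1) := single_ord' hp i (hm i)
  have hakill : p ^ (K + 1) • a = 0 := by rw [← haord]; exact addOrderOf_nsmul_eq_zero a
  have hbkill : p ^ (K + 1) • b = 0 := by rw [← hpa, ← mul_nsmul', mul_comm, mul_nsmul', hakill, smul_zero]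
  have hza : zc a = Pi.single i (1 : ℤ) := by
    rw [ha, zc_single hp i _ (by have := hm i; omega) le_rfl, Nat.sub_self, pow_zero]
  have hzb : zc b = Pi.single i (p : ℤ) := by
    rw [hb, zc_single hp i _ (by omega) (by omega)]
    congr 1
    have : m i - (m i - 1) = 1 := by have := hm i; omega
    rw [this, pow_one]
  -- the correction
  set e : Fin r → ℤ := Pi.single i 1 with he
  set G : Bgrp p K m → T := fun x => Psi p Φ (zc x) - Psi p Φ (zc x - e) with hG
  have hGcond : Cond (p ^ (K + 1)) (chi n) 0 G := by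
    intro a' ha' y
    have hprim := prim_zc hp hm a' ha'
    rw [map_zero, hG]
    rw [Finset.sum_sub_distrib]
    rw [line_sum hp hm (Psi p Φ) (Psi_per hp Φ hΦ) y a' (ord_kill ha')]
    rw [line_sum hp hm (fun x => Psi p Φ (x - e)) (by
      intro x x' hx
      apply Psi_per hp Φ hΦ
      intro j
      have := hx j
      simpa using this) y a' (ord_kill ha')]
    have h1 : ∀ t : ℕ, zc y + (t : ℤ) • zc a' - e = (zc y - e) + (t : ℤ) • zc a' := by
      intro t; abel
    simp only [h1]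
    rw [Psi_line hp i Φ hΦ hsum _ _ hprim, Psi_line hp i Φ hΦ hsum _ _ hprim]
    by_cases hdi : ∀ j, j ≠ i → (p : ℤ) ∣ zc a' j
    · have h2 := solv_iff hp i _ hprim hdi (zc y)
      have h3 := solv_iff hp i _ hprim hdi (zc y - e)
      have h4 : (∀ j, j ≠ i → (p : ℤ) ∣ (zc y - e) j) ↔ ∀ j, j ≠ i → (p : ℤ) ∣ zc y j := by
        refine forall_congr' fun j => forall_congr' fun hj => ?_
        rw [Pi.sub_apply, he, Pi.single_eq_of_ne hj, sub_zero]
      rw [h4, ← h2] at h3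
      by_cases h5 : ∃ t : ℤ, ∀ j, (p : ℤ) ∣ zc y j + t * zc a' j
      · rw [if_pos h5, if_pos (h3.2 h5), sub_self]
      · rw [if_neg h5, if_neg (fun h => h5 (h3.1 h)), sub_self]
    · have h2 : gv p i 0 (zc a') = 0 := by
        unfold gv
        rw [if_neg hdi]
      rw [h2]
      simp
  refine ⟨fun x => (∑ s ∈ range p, Fa (x + s • a)) + G x, ?_, 0, ?_⟩
  · have := hFb.add hGcond 0
    simpa using this
  · rw [Finset.sum_add_distrib]
    have h1 : ∑ t ∈ range (p ^ K), ∑ s ∈ range p, Fa (0 + t • b + s • a) = chi n a a := by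
      rw [← hFa a haord 0, pow_succ' p K, sum_range_mul'' _ p (p ^ K), Finset.sum_comm]
      refine Finset.sum_congr rfl fun s _ => Finset.sum_congr rfl fun t _ => ?_
      congr 1
      rw [← hpa, ← mul_nsmul', add_nsmul, mul_comm t p]
      abel
    have h2 : chi n a a = ((1 / (p : ℚ) ^ n : ℚ) : T) := by
      have hfst : Fst p i (zc a) := by
        rw [hza]
        constructor
        · rw [he, Pi.single_eq_same]
          intro h
          have := Int.le_of_dvd (by norm_num) h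
          have := hp.two_le
          omega
        · intro j hj
          rw [he, Pi.single_eq_of_ne hj.ne]
          exact dvd_zero _
      rw [chi_first hp hm hn a a i hfst, ha, Pi.single_eq_same,
        single_val hp i _ (by have := hm i; omega), ← AddCircle.coe_nsmul]
      congr 1
      have hpQ : (p : ℚ) ≠ 0 := by exact_mod_cast hp.ne_zero
      rw [nsmul_eq_mul, pow_add]
      push_cast
      field_simp
    have h3 : ∑ t ∈ range (p ^ K), G (0 + t • b) = - ((1 / (p : ℚ) ^ n : ℚ) : T) := by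
      have h4 : ∀ t ∈ range (p ^ K), G (0 + t • b) = Φ (0 + (t : ℤ) • e) := by
        intro t _
        have h5 : Psi p Φ (zc ((0 : Bgrp p K m) + t • b)) = Φ (0 + (t : ℤ) • e) := by
          rw [← Psi_mul hp Φ]
          apply Psi_per hp Φ hΦ
          intro j
          have h6 := zc_add hp hm 0 b hbkill t j
          rw [zc_zero, hzb] at h6
          have h7 : ((p : ℤ) • (0 + (t : ℤ) • e)) j = (0 : Fin r → ℤ) j + t * (Pi.single i (p : ℤ) : Fin r → ℤ) j := by
            by_cases hj : j = i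
            · subst hj
              simp [he, mul_comm]
            · simp [he, Pi.single_eq_of_ne hj]
          rw [h7]
          exact h6
        have h8 : Psi p Φ (zc ((0 : Bgrp p K m) + t • b) - e) = 0 := by
          unfold Psi
          rw [if_neg]
          intro hcon
          have h6 := zc_add hp hm 0 b hbkill t i
          rw [zc_zero, hzb, Pi.single_eq_same] at h6
          have h9 := hcon i
          rw [Pi.sub_apply, he, Pi.single_eq_same] at h9
          have h10 : (p : ℤ) ∣ zc ((0 : Bgrp p K m) + t • b) i - ((0 : Fin r → ℤ) i + t * (p : ℤ)) :=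
            dvd_trans (dvd_pow_self _ (by omega)) h6
          have h11 : (p : ℤ) ∣ 1 := by
            have h12 : (1 : ℤ) = (zc ((0 : Bgrp p K m) + t • b) i - ((0 : Fin r → ℤ) i + t * (p : ℤ)))
              - (zc ((0 : Bgrp p K m) + t • b) i - 1) + t * p := by
              rw [Pi.zero_apply]; ring
            rw [h12]
            exact dvd_add (dvd_sub h10 h9) (Dvd.intro_left _ rfl)
          have := Int.le_of_dvd (by norm_num) h11
          have := hp.two_le
          omega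
        rw [hG]
        dsimp only
        rw [h5, h8, sub_zero]
      rw [Finset.sum_congr rfl h4, hsum 0 e]
      · have h5 : gv p i 0 e = -1 := by
          unfold gv
          rw [if_pos]
          intro j hj
          rw [he, Pi.single_eq_of_ne hj]
          exact dvd_zero _
        rw [h5, neg_smul, one_smul]
      · refine ⟨i, ?_⟩
        rw [he, Pi.single_eq_same]
        intro h
        have := Int.le_of_dvd (by norm_num) h
        have := hp.two_le
        omega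
    rw [h1, h2, h3, add_neg_cancel]

/-- existence of the data -/
theorem exists_data (hp : p.Prime) {r : ℕ} (m : Fin r → ℕ) (hm : ∀ i, 1 ≤ m i) :
    ∃ (K n : ℕ) (χ : Bgrp p K m → Bgrp p K m →+ T), Data p K n m χ := by
  obtain ⟨n, hn⟩ : ∃ n : ℕ, ∀ i, m i ≤ n := ⟨∑ i, m i, fun i => Finset.single_le_sum
    (f := m) (fun _ _ => Nat.zero_le _) (Finset.mem_univ i)⟩
  have h1 : ∀ l : Fin r, ∃ k0, ∀ k ≥ k0, ∃ F : (Fin r → ℤ) → T,
      (∀ x x' : Fin r → ℤ, (∀ i, (p : ℤ) ^ k ∣ x i - x' i) → F x = F x') ∧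
      ∀ y d, Prim p d → ∑ t ∈ range (p ^ k), F (y + (t : ℤ) • d) =
        gg p l y d • ((1 / (p : ℚ) ^ (m l - 1 + n) : ℚ) : T) :=
    fun l => ML_T hp _ _ (gg_line hp l)
  have h2 : ∀ l : Fin r, ∃ k0, ∀ k ≥ k0, ∃ F : (Fin r → ℤ) → T,
      (∀ x x' : Fin r → ℤ, (∀ i, (p : ℤ) ^ k ∣ x i - x' i) → F x = F x') ∧
      ∀ y d, Prim p d → ∑ t ∈ range (p ^ k), F (y + (t : ℤ) • d) =
        gv p l y d • ((1 / (p : ℚ) ^ n : ℚ) : T) :=
    fun l => ML_T hp _ _ (gv_line hp l)
  choose k1 hk1 using h1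
  choose k2 hk2 using h2
  obtain ⟨K, hK1, hKn, hKk1, hKk2⟩ : ∃ K : ℕ, 1 ≤ K ∧ n ≤ K + 1 ∧ (∀ l, k1 l ≤ K + 1) ∧
      ∀ l, k2 l ≤ K := by
    refine ⟨1 + n + ∑ l, k1 l + ∑ l, k2 l, by omega, by omega, fun l => ?_, fun l => ?_⟩
    · have := Finset.single_le_sum (f := k1) (fun _ _ => Nat.zero_le _) (Finset.mem_univ l)
      omega
    · have := Finset.single_le_sum (f := k2) (fun _ _ => Nat.zero_le _) (Finset.mem_univ l)
      omega
  have hex := chi_ex (n := n) (K := K) hp hm hKn (fun l => hk1 l (K + 1) (hKk1 l))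
  refine ⟨K, n, chi n, ⟨⟨hp, ?_, hKn, fun a ha => chi_ord hp hm hKn a ha⟩, hn, hex, ?_, ?_⟩⟩
  · intro b
    funext i
    rw [Pi.smul_apply, nsmul_eq_mul, Pi.zero_apply]
    have : ((p ^ (K + n) : ℕ) : ZMod (p ^ (K + m i))) = 0 := by
      rw [ZMod.natCast_eq_zero_iff]
      exact pow_dvd_pow p (Nat.add_le_add_left (hn i) K)
    rw [this, zero_mul]
  · intro b _ s hs hsb
    exact chi_sep hp hm hK1 b s hs hsb
  · intro i
    obtain ⟨Φ, hΦ, hsum⟩ := hk2 i K (hKk2 i)
    exact chi_van hp hm hKn hK1 i hex Φ hΦ hsum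

end Pool.Agent.Helper66.PAutCoord
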